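import Pool.Agent.Y303.SK.Defs

/-!
Project SK: exact statements of the steps.
-/

open Set Filter Topology MeasureTheory Metric

set_option autoImplicit false

namespace Pool.Agent.Y303.SK

open Pool.Agent.Y5 (E3)
open Pool.Agent.Y5.D (Ix qd vf3 Init)
open Pool.Agent.Y6.N
open Pool.Agent.Y6.K (Kz lv)

/-! ### Abstract part -/

/-- Existence for the truncated systems. -/
def S_GAL3 : Prop := ∀ (J : Type) (o : J → ℕ) (σ : J → J) (τ : J → ℝ)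
  (D : Ix J → Ix J → ℝ) (c : Ix J → Ix J → Ix J → ℝ) (Θ : ℝ) (S : ℕ → ℝ), Rot o σ τ →
  (∀ (s : Finset (Ix J)) (z : Ix J → ℝ), 0 ≤ ∑ a ∈ s, ∑ b ∈ s, D a b * z a * z b) →
  (∀ j a b, c j a b = -c b a j) → 0 < Θ → ∀ N, ∃ z, TSol Θ S o σ τ D c N z

/-- The other modes are as small as we like if the speeds are chosen recursively. -/
def S_BOOT3 : Prop := ∀ (J : Type) (g o : J → ℕ) (σ : J → J) (τ : J → ℝ)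
  (L C ℓ ρ : ℕ → ℝ) (B : ℕ → ℕ → ℝ) (R E : Ix J → ℝ) (D : Ix J → Ix J → ℝ)
  (c : Ix J → Ix J → Ix J → ℝ) (Θ : ℝ) (β : J → ℝ), KD g L C ℓ ρ B R E D c → Rot o σ τ →
  0 < Θ → (∀ j, 0 < β j) → ∃ S : ℕ → ℝ, (∀ m, 1 ≤ S m) ∧ ∀ N z, TSol Θ S o σ τ D c N z →
    ∀ j, ∀ t ∈ Icc (0 : ℝ) Θ, |z (Sum.inr j) t| ≤ β j

/-- Limits of the solutions of the truncated systems. -/
def S_LIM3 : Prop := ∀ (J : Type) (g o : J → ℕ) (σ : J → J) (τ : J → ℝ)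
  (lm L C M ℓ ρ : ℕ → ℝ) (B : ℕ → ℕ → ℝ) (R E : Ix J → ℝ) (D : Ix J → Ix J → ℝ)
  (c : Ix J → Ix J → Ix J → ℝ) (Θ : ℝ) (S : ℕ → ℝ) (b : J → ℝ), KD g L C ℓ ρ B R E D c →
  Seq lm L C ℓ M B → Rot o σ τ → 0 < Θ → (∀ j, 0 ≤ b j) → Summable b →
  ∀ Z : ℕ → Ix J → ℝ → ℝ, (∀ N, TSol Θ S o σ τ D c N (Z N)) →
  (∀ N j, ∀ t ∈ Icc (0 : ℝ) Θ, |Z N (Sum.inr j) t| ≤ b j) →
  ∀ U : Ultrafilter ℕ, (U : Filter ℕ) ≤ atTop → ∃ z : Ix J → ℝ → ℝ,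
    (∀ i, ∀ t ∈ Icc (0 : ℝ) Θ, Tendsto (fun N => Z N i t) U (𝓝 (z i t))) ∧ Init z ∧
    (∀ t ∈ Icc (0 : ℝ) Θ, Summable (fun a => z a t ^ 2) ∧ ∑' a, z a t ^ 2 ≤ 1) ∧
    (∀ j, ∀ t ∈ Icc (0 : ℝ) Θ, |z (Sum.inr j) t| ≤ b j) ∧
    ∀ θ, 0 ≤ θ → θ ≤ Θ →
      (∃ X, ∀ᶠ N in (U : Filter ℕ), ∀ t ∈ Icc 0 θ, ∀ n, L n * |Z N (Sum.inl n) t| ≤ X) →
      ∀ i, ∀ t ∈ Icc 0 θ, HasDerivWithinAt (z i)
        (Kz S o σ τ (fun a => z a t) i - lin D (fun a => z a t) i + qd c (fun a => z a t) i)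
        (Icc 0 θ) t

/-- The perturbation of the main modes is small if the other modes are small. -/
def S_PB3 : Prop := ∀ (J : Type) (g o : J → ℕ) (σ : J → J) (τ : J → ℝ)
  (lm L C M ℓ ρ φ : ℕ → ℝ) (B : ℕ → ℕ → ℝ) (R E : Ix J → ℝ) (D : Ix J → Ix J → ℝ)
  (c : Ix J → Ix J → Ix J → ℝ), KD g L C ℓ ρ B R E D c → Seq lm L C ℓ M B → Rot o σ τ →
  (∀ n, 0 < φ n) → ∃ β : J → ℝ, (∀ j, 0 < β j) ∧ Summable β ∧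
    ∀ z : Ix J → ℝ, Summable (fun a => z a ^ 2) → ∑' a, z a ^ 2 ≤ 1 →
      (∀ j, |z (Sum.inr j)| ≤ β j) → ∀ n,
      Summable (fun p : Ix J × Ix J => c (Sum.inl n) p.1 p.2 * z p.1 * z p.2) →
      |qd c z (Sum.inl n) - lin D z (Sum.inl n) - vf3 L C ℓ B (fun m => z (Sum.inl m)) n|
        ≤ φ 0 * |z (Sum.inl n)| + φ n

/-- Blow-up for the system of the modes. -/
def S_BLOW3 : Prop := ∀ (J : Type) (g o : J → ℕ) (σ : J → J) (τ : J → ℝ)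
  (lm L C M ℓ ρ : ℕ → ℝ) (B : ℕ → ℕ → ℝ) (R E : Ix J → ℝ) (D : Ix J → Ix J → ℝ)
  (c : Ix J → Ix J → Ix J → ℝ) (β : J → ℝ), KD g L C ℓ ρ B R E D c → Seq lm L C ℓ M B →
  Rot o σ τ → (∀ j, 0 < β j) → ∃ S : ℕ → ℝ, (∀ n, 1 ≤ S n) ∧ ∃ (T : ℝ) (z : Ix J → ℝ → ℝ),
    0 < T ∧ Sol L o σ τ D c β S T z

/-! ### The packets and the parameters -/

def S_PK : Prop := ∃ (Ψ H : E3 → E3) (a κ h q q' : ℝ), Pk Ψ H a κ h q q'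

def S_PAR : Prop := ∀ a κ h q' G δ : ℝ, 0 < a → 0 < κ → 0 < h → 0 < q' → 0 < G → 0 < δ →
  ∃ r α ε lm L : ℕ → ℝ, Par a κ h q' G δ r α ε lm L

/-- Fields which vanish near `p` are dense. -/
def S_DENS : Prop := ∀ (Ω : Set E3) (p : E3) (v : E3 → E3), IsOpen Ω → p ∈ Ω → CS Ω v →
  ∀ ε > 0, ∃ w, CS Ω w ∧ (∃ ρ > 0, ∀ x ∈ ball p ρ, w x = 0) ∧ ∫ x, ‖v x - w x‖ ^ 2 < ε

/-- Gram-Schmidt. -/
def S_GS : Prop := ∀ (X : Type) [NormedAddCommGroup X] [InnerProductSpace ℝ X] (φ : ℕ → X),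
  ¬ FiniteDimensional ℝ (Submodule.span ℝ (range φ)) → ∃ w : ℕ × Bool → X, Orthonormal ℝ w ∧
    (∀ j, w j ∈ Submodule.span ℝ (range φ)) ∧ ∀ k, φ k ∈ Submodule.span ℝ (range w)

/-- The other modes. -/
def S_BAS : Prop := ∀ (Ω : Set E3) (p y : E3) (δ : ℝ) (ψ : ℕ → E3 → E3), IsOpen Ω → p ∈ Ω →
  0 < δ → ball y δ ⊆ Ω → p ∉ ball y δ → (∀ n, CS Ω (ψ n)) → (∀ n, ∀ x ∈ ball y δ, ψ n x = 0) →
  (∀ m n, (m = n → ipr (ψ m) (ψ n) = 1) ∧ (m ≠ n → ipr (ψ m) (ψ n) = 0)) →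
  (∀ ρ > 0, ∃ N, ∀ n ≥ N, ∀ x, x ∉ ball p ρ → ψ n x = 0) →
  (∀ n, ∃ s ρ : ℝ, 0 < ρ ∧ ∀ x ∈ ball p ρ, ψ n x = s • Sm (x - p)) →
  ∃ w : ℕ × Bool → E3 → E3, Bas Ω p ψ w

/-! ### Forms -/

/-- Antisymmetry, bounds on orthonormal systems. -/
def S_FORM : Prop :=
  (∀ u v w : E3 → E3, CS univ u → CS univ v → CS univ w → adv u v w = -adv u w v) ∧
  (∀ v w : E3 → E3, ipr v w = ipr w v ∧ dirf v w = dirf w v) ∧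
  ∀ (I : Type) (e : I → E3 → E3), (∀ a, CS univ (e a)) →
    (∀ a b, (a = b → ipr (e a) (e b) = 1) ∧ (a ≠ b → ipr (e a) (e b) = 0)) →
    (∀ (s : Finset I) (z : I → ℝ), CS univ (fun x => ∑ a ∈ s, z a • e a x) ∧
      ipr (fun x => ∑ a ∈ s, z a • e a x) (fun x => ∑ a ∈ s, z a • e a x) = ∑ a ∈ s, z a ^ 2 ∧
      dirf (fun x => ∑ a ∈ s, z a • e a x) (fun x => ∑ a ∈ s, z a • e a x) =
        ∑ a ∈ s, ∑ b ∈ s, dirf (e a) (e b) * z a * z b ∧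
      ∀ f, CS univ f → ipr (fun x => ∑ a ∈ s, z a • e a x) f = ∑ a ∈ s, z a * ipr (e a) f) ∧
    ∀ i, ∃ X : ℝ, (∀ (s : Finset I) (z w : I → ℝ),
      |∑ a ∈ s, ∑ b ∈ s, -adv (e a) (e b) (e i) * z a * w b| ≤
        X * (√(∑ a ∈ s, z a ^ 2) * √(∑ a ∈ s, w a ^ 2))) ∧
      ∀ (s : Finset I) (z : I → ℝ),
        |∑ b ∈ s, dirf (e i) (e b) * z b| ≤ X * √(∑ b ∈ s, z b ^ 2)

/-- Hardy-type inequality. -/
def S_HDY : Prop := ∀ (v : E3 → E3) (p : E3) (r : ℝ), CS univ v → 0 < r →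
  ∫ x in ball p r, ‖v x‖ ^ 2 ≤ 8 * r ^ 2 * dirf v v

/-! ### The main modes -/

/-- slope of the linear part of the main mode `n` -/
noncomputable def Am (a : ℝ) (r α : ℕ → ℝ) (n : ℕ) : ℝ := α n * a / (r n ^ 2 * √(r n))

/-- Elementary properties of the main modes. -/
def S_MM : Prop := ∀ (p : E3) (Ψ H : E3 → E3) (a κ h q q' G δ : ℝ) (r α ε lm L : ℕ → ℝ),
  Pk Ψ H a κ h q q' → Par a κ h q' G δ r α ε lm L →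
  (∀ n, CS (ball p (r n)) (psi p Ψ H r α ε n)) ∧
  (∀ n, Low p (r (n + 1)) H (psi p Ψ H r α ε n) (Am a r α n) (ε n)) ∧
  (∀ n m, n + 2 ≤ m → Low p (r m) H (psi p Ψ H r α ε n) (Am a r α n) 0) ∧
  (∀ n, ipr (psi p Ψ H r α ε n) (psi p Ψ H r α ε n) = 1) ∧
  ∀ n, 0 ≤ dirf (psi p Ψ H r α ε n) (psi p Ψ H r α ε n) ∧
    dirf (psi p Ψ H r α ε n) (psi p Ψ H r α ε n) * r n ^ 2 ≤ dirf Ψ Ψ + dirf H H

/-- Interactions with fields of lower index. -/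
def S_INT : Prop := ∀ (p : E3) (Ψ H : E3 → E3) (a κ h q q' G δ : ℝ) (r α ε lm L : ℕ → ℝ),
  Pk Ψ H a κ h q q' → Par a κ h q' G δ r α ε lm L → ∀ (m : ℕ) (f f' : E3 → E3) (s θ s' θ' : ℝ),
  CS univ f → CS univ f' → Low p (r m) H f s θ → Low p (r m) H f' s' θ' →
  ipr f (psi p Ψ H r α ε m) = 0 ∧ dirf f (psi p Ψ H r α ε m) = 0 ∧
  adv f f' (psi p Ψ H r α ε m) = -(θ * θ' * (Am a r α m * h)) ∧
  adv (psi p Ψ H r α ε m) f f' = 0 ∧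
  adv (psi p Ψ H r α ε m) f (psi p Ψ H r α ε m) = -(s * (α m ^ 2 * κ - ε m ^ 2 * h))

/-- Bounds of the derivatives of the main modes. -/
def S_DERB : Prop := ∀ (p : E3) (Ψ H : E3 → E3) (a κ h q q' G δ : ℝ) (r α ε lm L : ℕ → ℝ),
  Pk Ψ H a κ h q q' → Par a κ h q' G δ r α ε lm L → ∀ k : ℕ, ∃ (X : ℝ) (m : ℕ), ∀ n,
    nk k (psi p Ψ H r α ε n) ≤ X * L n ^ m

/-- The kernel. -/
def S_CONC : Prop := ∀ (ν : ℝ) (Ω : Set E3) (p : E3) (Ψ H : E3 → E3) (a κ h q q' δ : ℝ)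
  (r α ε lm L : ℕ → ℝ), 0 < ν → Pk Ψ H a κ h q q' →
  Par a κ h q' (ν * (dirf Ψ Ψ + dirf H H)) δ r α ε lm L → ball p (r 0) ⊆ Ω →
  ∀ (J : Type) (w : J → E3 → E3), Bas Ω p (psi p Ψ H r α ε) w →
  ∃ (g : J → ℕ) (ℓ ρ : ℕ → ℝ) (R E : Ix J → ℝ),
    KD g L (fun n => ε n ^ 2 * (h / κ) * (L (n + 1) / L n)) ℓ ρ
      (fun _ n => α n ^ 2 - ε n ^ 2 * (h / κ)) R E (DD ν (em (psi p Ψ H r α ε) w))
      (cc (em (psi p Ψ H r α ε) w)) ∧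
    Seq lm L (fun n => ε n ^ 2 * (h / κ) * (L (n + 1) / L n)) ℓ (fun _ => 1)
      (fun _ n => α n ^ 2 - ε n ^ 2 * (h / κ))

/-! ### Series and equations -/

/-- Calculus of the series. -/
def S_SER : Prop := ∀ (Ω : Set E3) (I : Type) [Countable I] (e : I → E3 → E3) (z : I → ℝ),
  IsOpen Ω → Bornology.IsBounded Ω → (∀ a, CS Ω (e a)) →
  (∀ a b, (a = b → ipr (e a) (e b) = 1) ∧ (a ≠ b → ipr (e a) (e b) = 0)) →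
  (∀ k : ℕ, Summable (fun a => |z a| * nk k (e a))) →
  ContDiff ℝ (⊤ : ℕ∞) (ser e z) ∧ (∀ x ∉ Ω, ser e z x = 0) ∧
  (∀ (k : ℕ) (x : E3), ‖iteratedFDeriv ℝ k (ser e z) x‖ ≤ ∑' a, |z a| * nk k (e a)) ∧
  (∀ x, dvg (ser e z) x = 0) ∧ InH Ω (ser e z) ∧ (∀ i, ipr (ser e z) (e i) = z i) ∧
  (∀ i, dirf (ser e z) (e i) = ∑' b, dirf (e i) (e b) * z b) ∧
  ∀ i, adv (ser e z) (ser e z) (e i) = ∑' p : I × I, adv (e p.1) (e p.2) (e i) * z p.1 * z p.2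

/-- The energy identity. -/
def S_ENER : Prop := ∀ (Ω : Set E3) (ν : ℝ) (ι : Type) (e : ι → E3 → E3) (σ : ι → ι)
  (s : ι → ℝ) (T : ℝ) (u : ℝ → E3 → E3), IsOpen Ω → Bornology.IsBounded Ω →
  SkewD Ω e σ s → SolD Ω ν e σ s T u → (∀ t ∈ Ico 0 T, ContDiff ℝ 2 (u t)) →
  (∀ T' < T, ∃ b : ι → ℝ, Summable b ∧ ∀ t ∈ Icc 0 T', ∀ i, |ipr (u t) (e i)| ≤ b i) →
  ∀ t ∈ Ico 0 T, HasDerivWithinAt (fun τ => ipr (u τ) (u τ)) (-(2 * (ν * dirf (u t) (u t))))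
    (Ico 0 T) t

/-- Sign of the Laplacian. -/
def S_SGN : Prop := ∀ (Ω : Set E3) (w : E3 → E3) (M : ℝ), IsOpen Ω → Bornology.IsBounded Ω →
  Continuous w → (∀ x ∉ Ω, w x = 0) → ContDiffOn ℝ 2 w Ω →
  (∀ x ∈ Ω, ‖fderiv ℝ w x‖ ≤ M ∧ ‖fderiv ℝ (fderiv ℝ w) x‖ ≤ M) →
  ∫ x in Ω, inner ℝ (∑ i : Fin 3, fderiv ℝ (fderiv ℝ w) x (cv i) (cv i)) (w x) ≤ 0

/-- Uniqueness. -/
def S_UNIQ : Prop := ∀ (Ω : Set E3) (ν : ℝ) (ι : Type) (e : ι → E3 → E3) (σ : ι → ι)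
  (s : ι → ℝ) (T : ℝ) (u v : ℝ → E3 → E3), IsOpen Ω → Bornology.IsBounded Ω → 0 < ν →
  SkewD Ω e σ s → SolD Ω ν e σ s T u → SolD Ω ν e σ s T v → u 0 = v 0 →
  ∀ t ∈ Ico 0 T, u t = v t

/-! ### The main theorem -/

/-- Blow-up for the Navier-Stokes equations in `Ω` with Dirichlet conditions and an additional
skew-adjoint linear term, for every viscosity and every bounded open set. -/
def S_MAIN : Prop := ∀ (ν : ℝ) (Ω : Set E3), 0 < ν → IsOpen Ω → Bornology.IsBounded Ω →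
  Ω.Nonempty → ∃ (ι : Type) (e : ι → E3 → E3) (σ : ι → ι) (s : ι → ℝ) (i₀ : ι) (T : ℝ)
    (u : ℝ → E3 → E3), SkewD Ω e σ s ∧ 0 < T ∧ SolD Ω ν e σ s T u ∧ u 0 = e i₀ ∧
    -- all derivatives in space are continuous in `ℝ³` and bounded, locally uniformly in time
    (∀ t ∈ Ico 0 T, ContDiff ℝ (⊤ : ℕ∞) (u t)) ∧
    (∀ k : ℕ, ∀ T' < T, ∃ M, ∀ t ∈ Icc 0 T', ∀ x, ‖iteratedFDeriv ℝ k (u t) x‖ ≤ M) ∧
    -- uniqueness, and `T` is the maximal time of existence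
    (∀ (T' : ℝ) (v : ℝ → E3 → E3), 0 < T' → SolD Ω ν e σ s T' v → v 0 = e i₀ →
      T' ≤ T ∧ ∀ t ∈ Ico 0 T', v t = u t) ∧
    -- the energy identity of the Navier-Stokes equations
    (∀ t ∈ Ico 0 T, HasDerivWithinAt (fun τ => ipr (u τ) (u τ)) (-(2 * (ν * dirf (u t) (u t))))
      (Ico 0 T) t) ∧
    -- blow-up of the velocity
    ∀ M : ℝ, ∃ t ∈ Ico 0 T, ∃ x, M < ‖u t x‖

end Pool.Agent.Y303.SK
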