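import Pool.Agent.Y303.SK.Fin
import Pool.Agent.Y421.SK.Gal
import Pool.Agent.Y878.SK.Boot
import Pool.Agent.Y914.SK.Lim
import Pool.Agent.Y839.SK.PB
import Pool.Agent.Y448.SK.PK
import Pool.Agent.Y302.SK.Par
import Pool.Agent.Y302.SK.Gs
import Pool.Agent.Y328.SK.Bas
import Pool.Agent.Y317.SK.Form
import Pool.Agent.Y232.SK.Hdy
import Pool.Agent.Y841.SK.MM
import Pool.Agent.Y317.SK.Int
import Pool.Agent.Y708.SK.Conc
import Pool.Agent.Y153.SKD.Derb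
import Pool.Agent.Y427.SK.Ser
import Pool.Agent.Y500.SK.Ener
import Pool.Agent.Y427.SK.Sgn
import Pool.Agent.Y427.SK.Dens
import Pool.Agent.Y145.NSK.Pers
import Pool.Agent.Y93.SK.Uniq
import Pool.Agent.Y6.N.P7

/-! Project SK: everything together. -/

set_option autoImplicit false

namespace Pool.Agent.Y303.SK

theorem t_BLOW3 : S_BLOW3 :=
  t_BLOW3_of Pool.Agent.Y421.SK.t_GAL3 Pool.Agent.Y878.SK.t_BOOT3 Pool.Agent.Y914.SK.t_LIM3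
    Pool.Agent.Y145.NSK.t_PERS2 Pool.Agent.Y145.NSK.t_LOC2 Pool.Agent.Y6.N.t_ODE2
    Pool.Agent.Y839.SK.t_PB3

theorem t_BAS : S_BAS := Pool.Agent.Y328.SK.t_BAS Pool.Agent.Y427.SK.t_DENS Pool.Agent.Y302.SK.t_GS

theorem t_INT : S_INT := Pool.Agent.Y317.SK.t_INT Pool.Agent.Y841.SK.t_MM Pool.Agent.Y317.SK.t_FORM

theorem t_CONC : S_CONC := Pool.Agent.Y708.SK.t_CONC Pool.Agent.Y841.SK.t_MM t_INT
  Pool.Agent.Y317.SK.t_FORM Pool.Agent.Y232.SK.t_HDY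

theorem t_MAIN' (hU : S_UNIQ) : S_MAIN :=
  t_MAIN_of t_BLOW3 Pool.Agent.Y448.SK.t_PK Pool.Agent.Y302.SK.t_PAR t_BAS
    Pool.Agent.Y317.SK.t_FORM Pool.Agent.Y841.SK.t_MM t_INT Pool.Agent.Y153.SKD.t_DERB t_CONC
    Pool.Agent.Y427.SK.t_SER Pool.Agent.Y500.SK.t_ENER hU

theorem t_UNIQ : S_UNIQ := Pool.Agent.Y93.SK.t_UNIQ Pool.Agent.Y427.SK.t_SGN

theorem t_MAIN : S_MAIN := t_MAIN' t_UNIQ

end Pool.Agent.Y303.SK
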