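import Pool.Agent.Y303.SK.Stm

/-!
Project SKX: axisymmetric Navier-Stokes flows in `ℝ³` with an additional skew-adjoint linear term
which acts on the swirl-free part only. Definitions.
-/

open Set Filter Topology MeasureTheory Metric

set_option autoImplicit false

namespace Pool.Agent.Y303.SK

open Pool.Agent.Y5 (E3)
open Pool.Agent.Y5.D (Ix qd vf3 Init)
open Pool.Agent.Y6.N
open Pool.Agent.Y6.K (Kz lv)

/-- rotation about the third axis -/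
noncomputable def rtz (θ : ℝ) (x : E3) : E3 :=
  WithLp.toLp 2 ![Real.cos θ * x 0 - Real.sin θ * x 1, Real.sin θ * x 0 + Real.cos θ * x 1, x 2]

/-- axisymmetric fields -/
def Axi (v : E3 → E3) : Prop := ∀ (θ : ℝ) (x : E3), v (rtz θ x) = rtz θ (v x)

/-- axisymmetric fields without swirl (`u_θ = 0`) -/
structure Pol (v : E3 → E3) : Prop where
  axi : Axi v
  swirl : ∀ x, x 0 * v x 1 - x 1 * v x 0 = 0

/-- axisymmetric fields with `u_r = u_z = 0` -/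
structure Swl (v : E3 → E3) : Prop where
  axi : Axi v
  pol : ∀ x, v x 2 = 0 ∧ x 0 * v x 0 + x 1 * v x 1 = 0

/-- norm in `L²` of the derivative of order `k` -/
noncomputable def l2 (k : ℕ) (f : E3 → E3) : ℝ := √(∫ x, ‖iteratedFDeriv ℝ k f x‖ ^ 2)

/-- Other modes: orthonormal, orthogonal to the `ψ n`, linear near `p`. -/
structure Bas0 {J : Type} (p : E3) (ψ : ℕ → E3 → E3) (w : J → E3 → E3) : Prop where
  cs : ∀ j, CS univ (w j)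
  lin : ∀ j, ∃ s ρ : ℝ, 0 < ρ ∧ ∀ x ∈ ball p ρ, w j x = s • Sm (x - p)
  orth : ∀ i j, (i = j → ipr (w i) (w j) = 1) ∧ (i ≠ j → ipr (w i) (w j) = 0)
  perp : ∀ n j, ipr (ψ n) (w j) = 0

/-- The skew-adjoint linear operator `K = ∑ s i ⟨·, e (σ i)⟩ e i`: here `e i` is a complete
orthonormal system in the space of the axisymmetric divergence-free fields of `L²(ℝ³)`, it consists
of smooth compactly supported fields, each of them without swirl or with swirl only, `K` vanishes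
on the latter; `σ` is an involution and `s (σ i) = - s i`. -/
structure SkewX {ι : Type} (e : ι → E3 → E3) (σ : ι → ι) (s : ι → ℝ) : Prop where
  field : ∀ i, CS univ (e i)
  split : ∀ i, Pol (e i) ∨ (Swl (e i) ∧ σ i = i ∧ s i = 0)
  orth : ∀ i j, (i = j → ipr (e i) (e j) = 1) ∧ (i ≠ j → ipr (e i) (e j) = 0)
  compl : ∀ v, CS univ v → Axi v → ∀ ε > 0, ∃ (F : Finset ι) (b : ι → ℝ),
    ∫ x, ‖v x - ∑ a ∈ F, b a • e a x‖ ^ 2 < ε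
  inv : ∀ i, σ (σ i) = i
  skew : ∀ i, s (σ i) = -s i

/-- Axisymmetric smooth solutions on `[0, T)`, in `H^∞(ℝ³)` with locally uniform bounds, of
`∂ₜ u + (u · ∇) u + ∇p = ν Δ u + K u`, `div u = 0` (the equation is tested with the complete
system `e`). -/
structure SolX {ι : Type} (ν : ℝ) (e : ι → E3 → E3) (σ : ι → ι) (s : ι → ℝ)
    (T : ℝ) (u : ℝ → E3 → E3) : Prop where
  smooth : ∀ t ∈ Ico 0 T, ContDiff ℝ (⊤ : ℕ∞) (u t)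
  axi : ∀ t ∈ Ico 0 T, Axi (u t)
  dv : ∀ t ∈ Ico 0 T, ∀ x, dvg (u t) x = 0
  bdd : ∀ k : ℕ, ∀ T' < T, ∃ M, ∀ t ∈ Icc 0 T',
    (∀ x, ‖iteratedFDeriv ℝ k (u t) x‖ ≤ M) ∧
      Integrable (fun x => ‖iteratedFDeriv ℝ k (u t) x‖ ^ 2) volume ∧
      ∫ x, ‖iteratedFDeriv ℝ k (u t) x‖ ^ 2 ≤ M
  eqn : ∀ i, ∀ t ∈ Ico 0 T, HasDerivWithinAt (fun τ => ipr (u τ) (e i))
    (s i * ipr (u t) (e (σ i)) - ν * dirf (u t) (e i) - adv (u t) (u t) (e i)) (Ico 0 T) t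

/-! ### Statements -/

/-- The two packets. -/
def S_PKX : Prop := ∃ (Ψ H : E3 → E3) (a κ h q q' : ℝ), Pk Ψ H a κ h q q' ∧ Pol Ψ ∧ Pol H

/-- The kernel (completeness is not needed for it). -/
def S_CONC0 : Prop := ∀ (ν : ℝ) (p : E3) (Ψ H : E3 → E3) (a κ h q q' δ : ℝ)
  (r α ε lm L : ℕ → ℝ), 0 < ν → Pk Ψ H a κ h q q' →
  Par a κ h q' (ν * (dirf Ψ Ψ + dirf H H)) δ r α ε lm L →
  ∀ (J : Type) (w : J → E3 → E3), Bas0 p (psi p Ψ H r α ε) w →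
  ∃ (g : J → ℕ) (ℓ ρ : ℕ → ℝ) (R E : Ix J → ℝ),
    KD g L (fun n => ε n ^ 2 * (h / κ) * (L (n + 1) / L n)) ℓ ρ
      (fun _ n => α n ^ 2 - ε n ^ 2 * (h / κ)) R E (DD ν (em (psi p Ψ H r α ε) w))
      (cc (em (psi p Ψ H r α ε) w)) ∧
    Seq lm L (fun n => ε n ^ 2 * (h / κ) * (L (n + 1) / L n)) ℓ (fun _ => 1)
      (fun _ n => α n ^ 2 - ε n ^ 2 * (h / κ))

/-- Swirl-free fields which vanish near the origin are dense. -/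
def S_DENSX : Prop := ∀ (v : E3 → E3), CS univ v → Pol v →
  ∀ ε > 0, ∃ w, CS univ w ∧ Pol w ∧ (∃ ρ > 0, ∀ x ∈ ball 0 ρ, w x = 0) ∧
    ∫ x, ‖v x - w x‖ ^ 2 < ε

/-- Compactly supported axisymmetric fields are dense. -/
def S_DENSR : Prop := ∀ (v : E3 → E3), ContDiff ℝ (⊤ : ℕ∞) v → Axi v → (∀ x, dvg v x = 0) →
  Integrable (fun x => ‖v x‖ ^ 2) volume →
  ∀ ε > 0, ∃ w, CS univ w ∧ Axi w ∧ ∫ x, ‖v x - w x‖ ^ 2 < ε

/-- The other swirl-free modes. -/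
def S_BASX : Prop := ∀ (R₀ : ℝ) (ψ : ℕ → E3 → E3), 0 < R₀ → (∀ n, CS (ball 0 R₀) (ψ n)) →
  (∀ n, Pol (ψ n)) →
  (∀ m n, (m = n → ipr (ψ m) (ψ n) = 1) ∧ (m ≠ n → ipr (ψ m) (ψ n) = 0)) →
  (∀ ρ > 0, ∃ N, ∀ n ≥ N, ∀ x, x ∉ ball (0 : E3) ρ → ψ n x = 0) →
  (∀ n, ∃ s ρ : ℝ, 0 < ρ ∧ ∀ x ∈ ball (0 : E3) ρ, ψ n x = s • Sm (x - 0)) →
  ∃ w : ℕ × Bool → E3 → E3, Bas0 0 ψ w ∧ (∀ j, Pol (w j)) ∧
    ∀ v, CS univ v → Pol v → ∀ ε > 0, ∃ (F : Finset (Ix (ℕ × Bool)))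
      (b : Ix (ℕ × Bool) → ℝ), ∫ x, ‖v x - ∑ a ∈ F, b a • em ψ w a x‖ ^ 2 < ε

/-- The swirl modes. -/
def S_SWB : Prop := ∃ g : ℕ → E3 → E3, (∀ k, CS univ (g k)) ∧ (∀ k, Swl (g k)) ∧
  (∀ m n, (m = n → ipr (g m) (g n) = 1) ∧ (m ≠ n → ipr (g m) (g n) = 0)) ∧
  ∀ v, CS univ v → Swl v → ∀ ε > 0, ∃ (F : Finset ℕ) (b : ℕ → ℝ),
    ∫ x, ‖v x - ∑ a ∈ F, b a • g a x‖ ^ 2 < ε

/-- Decomposition of the axisymmetric fields. -/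
def S_SPLIT : Prop := ∀ v, CS univ v → Axi v → ∃ v₁ v₂, CS univ v₁ ∧ Pol v₁ ∧ CS univ v₂ ∧
  Swl v₂ ∧ ∀ x, v x = v₁ x + v₂ x

/-- Swirl-free fields do not act on the swirl. -/
def S_SYM : Prop := ∀ u g : E3 → E3, ContDiff ℝ (⊤ : ℕ∞) u → Pol u → CS univ g → Swl g →
  ipr u g = 0 ∧ dirf u g = 0 ∧ adv u u g = 0

/-- Calculus of the series in `ℝ³`. -/
def S_SERR : Prop := ∀ (I : Type) [Countable I] (e : I → E3 → E3) (z : I → ℝ),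
  (∀ a, CS univ (e a)) → (∀ a, Pol (e a)) →
  (∀ a b, (a = b → ipr (e a) (e b) = 1) ∧ (a ≠ b → ipr (e a) (e b) = 0)) →
  (∀ k : ℕ, Summable (fun a => |z a| * (nk k (e a) + l2 k (e a)))) →
  ContDiff ℝ (⊤ : ℕ∞) (ser e z) ∧ Pol (ser e z) ∧
  (∀ (k : ℕ) (x : E3), ‖iteratedFDeriv ℝ k (ser e z) x‖ ≤ ∑' a, |z a| * nk k (e a)) ∧
  (∀ k : ℕ, Integrable (fun x => ‖iteratedFDeriv ℝ k (ser e z) x‖ ^ 2) volume ∧
    ∫ x, ‖iteratedFDeriv ℝ k (ser e z) x‖ ^ 2 ≤ (∑' a, |z a| * l2 k (e a)) ^ 2) ∧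
  (∀ x, dvg (ser e z) x = 0) ∧ (∀ i, ipr (ser e z) (e i) = z i) ∧
  (∀ i, dirf (ser e z) (e i) = ∑' b, dirf (e i) (e b) * z b) ∧
  ∀ i, adv (ser e z) (ser e z) (e i) = ∑' p : I × I, adv (e p.1) (e p.2) (e i) * z p.1 * z p.2

/-- The energy identity. -/
def S_ENERR : Prop := ∀ (ν : ℝ) (ι : Type) (e : ι → E3 → E3) (σ : ι → ι)
  (s : ι → ℝ) (T : ℝ) (u : ℝ → E3 → E3), SkewX e σ s → SolX ν e σ s T u →
  (∀ T' < T, ∃ b : ι → ℝ, Summable b ∧ ∀ t ∈ Icc 0 T', ∀ i, |ipr (u t) (e i)| ≤ b i) →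
  ∀ t ∈ Ico 0 T, HasDerivWithinAt (fun τ => ipr (u τ) (u τ)) (-(2 * (ν * dirf (u t) (u t))))
    (Ico 0 T) t

/-- Uniqueness. -/
def S_UNIQR : Prop := ∀ (ν : ℝ) (ι : Type) (e : ι → E3 → E3) (σ : ι → ι)
  (s : ι → ℝ) (T : ℝ) (u v : ℝ → E3 → E3), 0 < ν →
  SkewX e σ s → SolX ν e σ s T u → SolX ν e σ s T v → u 0 = v 0 →
  ∀ t ∈ Ico 0 T, u t = v t

/-- Blow-up for axisymmetric Navier-Stokes flows with an additional skew-adjoint linear term which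
vanishes on the swirl, from a swirl-free datum. -/
def S_MAINX : Prop := ∀ ν : ℝ, 0 < ν → ∃ (ι : Type) (e : ι → E3 → E3) (σ : ι → ι) (s : ι → ℝ)
    (i₀ : ι) (T : ℝ) (u : ℝ → E3 → E3), SkewX e σ s ∧ 0 < T ∧ SolX ν e σ s T u ∧
    u 0 = e i₀ ∧ (∀ t ∈ Ico 0 T, Pol (u t)) ∧
    -- uniqueness, and `T` is the maximal time of existence
    (∀ (T' : ℝ) (v : ℝ → E3 → E3), 0 < T' → SolX ν e σ s T' v → v 0 = e i₀ →
      T' ≤ T ∧ ∀ t ∈ Ico 0 T', v t = u t) ∧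
    -- the energy identity of the Navier-Stokes equations
    (∀ t ∈ Ico 0 T, HasDerivWithinAt (fun τ => ipr (u τ) (u τ)) (-(2 * (ν * dirf (u t) (u t))))
      (Ico 0 T) t) ∧
    -- blow-up of the velocity
    ∀ M : ℝ, ∃ t ∈ Ico 0 T, ∃ x, M < ‖u t x‖

end Pool.Agent.Y303.SK
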