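import Pool.Agent.Y303.SK.All

/-!
Project SK: the form in which the main theorem is stated (fields on `EuclideanSpace ℝ (Fin 3)`).
-/

open Set MeasureTheory

set_option autoImplicit false

namespace Pool.Agent.Y303.SKR

/-- the divergence -/
noncomputable def dvg (v : EuclideanSpace ℝ (Fin 3) → EuclideanSpace ℝ (Fin 3))
    (x : EuclideanSpace ℝ (Fin 3)) : ℝ :=
  ∑ i : Fin 3, (fderiv ℝ v x (EuclideanSpace.single i 1)) i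

/-- smooth divergence-free fields with compact support in `Ω` -/
structure CS (Ω : Set (EuclideanSpace ℝ (Fin 3)))
    (v : EuclideanSpace ℝ (Fin 3) → EuclideanSpace ℝ (Fin 3)) : Prop where
  smooth : ContDiff ℝ (⊤ : ℕ∞) v
  cpt : HasCompactSupport v
  supp : tsupport v ⊆ Ω
  dv : ∀ x, dvg v x = 0

/-- `∫ v · w` -/
noncomputable def ipr (v w : EuclideanSpace ℝ (Fin 3) → EuclideanSpace ℝ (Fin 3)) : ℝ :=
  ∫ x, inner ℝ (v x) (w x)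

/-- `∫ ∇v : ∇w` -/
noncomputable def dirf (v w : EuclideanSpace ℝ (Fin 3) → EuclideanSpace ℝ (Fin 3)) : ℝ :=
  ∫ x, ∑ i : Fin 3, inner ℝ (fderiv ℝ v x (EuclideanSpace.single i 1))
    (fderiv ℝ w x (EuclideanSpace.single i 1))

/-- `∫ ((u · ∇) v) · w` -/
noncomputable def adv (u v w : EuclideanSpace ℝ (Fin 3) → EuclideanSpace ℝ (Fin 3)) : ℝ :=
  ∫ x, inner ℝ (fderiv ℝ v x (u x)) (w x)

/-- The space `H`: the closure in `L²` of the smooth compactly supported divergence-free fields. -/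
def InH (Ω : Set (EuclideanSpace ℝ (Fin 3)))
    (v : EuclideanSpace ℝ (Fin 3) → EuclideanSpace ℝ (Fin 3)) : Prop :=
  MemLp v 2 volume ∧ ∀ ε > 0, ∃ w, CS Ω w ∧ ∫ x, ‖v x - w x‖ ^ 2 < ε

/-- The skew-adjoint linear operator `K = ∑ s i ⟨·, e (σ i)⟩ e i`: here `e i` is a complete
orthonormal system of `H` which consists of smooth compactly supported divergence-free fields,
`σ` is an involution and `s (σ i) = - s i`. -/
structure SkewD {ι : Type} (Ω : Set (EuclideanSpace ℝ (Fin 3)))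
    (e : ι → EuclideanSpace ℝ (Fin 3) → EuclideanSpace ℝ (Fin 3)) (σ : ι → ι) (s : ι → ℝ) :
    Prop where
  field : ∀ i, CS Ω (e i)
  orth : ∀ i j, (i = j → ipr (e i) (e j) = 1) ∧ (i ≠ j → ipr (e i) (e j) = 0)
  compl : ∀ v, CS Ω v → ∀ ε > 0, ∃ (F : Finset ι) (b : ι → ℝ),
    ∫ x, ‖v x - ∑ a ∈ F, b a • e a x‖ ^ 2 < ε
  inv : ∀ i, σ (σ i) = i
  skew : ∀ i, s (σ i) = -s i

/-- Classical solutions on `[0, T)` of `∂ₜ u + (u · ∇) u + ∇p = ν Δ u + K u`, `div u = 0` in `Ω`,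
`u = 0` on `∂Ω` (extended by zero; the equation is tested with the complete system `e`; the
derivatives of order `≤ 2` are bounded in `Ω`, locally uniformly in time). -/
structure SolD {ι : Type} (Ω : Set (EuclideanSpace ℝ (Fin 3))) (ν : ℝ)
    (e : ι → EuclideanSpace ℝ (Fin 3) → EuclideanSpace ℝ (Fin 3)) (σ : ι → ι) (s : ι → ℝ)
    (T : ℝ) (u : ℝ → EuclideanSpace ℝ (Fin 3) → EuclideanSpace ℝ (Fin 3)) : Prop where
  cont : ∀ t ∈ Ico 0 T, Continuous (u t)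
  zero : ∀ t ∈ Ico 0 T, ∀ x ∉ Ω, u t x = 0
  c2 : ∀ t ∈ Ico 0 T, ContDiffOn ℝ 2 (u t) Ω
  dv : ∀ t ∈ Ico 0 T, ∀ x ∈ Ω, dvg (u t) x = 0
  inH : ∀ t ∈ Ico 0 T, InH Ω (u t)
  bdd : ∀ T' < T, ∃ M, ∀ k ≤ 2, ∀ t ∈ Icc 0 T', ∀ x ∈ Ω, ‖iteratedFDeriv ℝ k (u t) x‖ ≤ M
  eqn : ∀ i, ∀ t ∈ Ico 0 T, HasDerivWithinAt (fun τ => ipr (u τ) (e i))
    (s i * ipr (u t) (e (σ i)) - ν * dirf (u t) (e i) - adv (u t) (u t) (e i)) (Ico 0 T) t

/-- `u` is smooth on `ℝ³` and all derivatives in space are bounded, locally uniformly in time. -/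
structure SmD (T : ℝ) (u : ℝ → EuclideanSpace ℝ (Fin 3) → EuclideanSpace ℝ (Fin 3)) :
    Prop where
  smooth : ∀ t ∈ Ico 0 T, ContDiff ℝ (⊤ : ℕ∞) (u t)
  bound : ∀ k : ℕ, ∀ T' < T, ∃ M, ∀ t ∈ Icc 0 T', ∀ x, ‖iteratedFDeriv ℝ k (u t) x‖ ≤ M

open Pool.Agent.Y5 (E3)

theorem cs_iff {Ω : Set E3} {v : E3 → E3} : CS Ω v ↔ SK.CS Ω v :=
  ⟨fun h => ⟨h.smooth, h.cpt, h.supp, h.dv⟩, fun h => ⟨h.smooth, h.cpt, h.supp, h.dv⟩⟩

theorem inH_iff {Ω : Set E3} {v : E3 → E3} : InH Ω v ↔ SK.InH Ω v := by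
  constructor
  · rintro ⟨h1, h2⟩
    refine ⟨h1, fun ε hε => ?_⟩
    obtain ⟨w, hw, hw2⟩ := h2 ε hε
    exact ⟨w, cs_iff.1 hw, hw2⟩
  · rintro ⟨h1, h2⟩
    refine ⟨h1, fun ε hε => ?_⟩
    obtain ⟨w, hw, hw2⟩ := h2 ε hε
    exact ⟨w, cs_iff.2 hw, hw2⟩

theorem skewD_iff {ι : Type} {Ω : Set E3} {e : ι → E3 → E3} {σ : ι → ι} {s : ι → ℝ} :
    SkewD Ω e σ s ↔ SK.SkewD Ω e σ s :=
  ⟨fun h => ⟨fun i => cs_iff.1 (h.field i), h.orth, fun v hv => h.compl v (cs_iff.2 hv), h.inv,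
    h.skew⟩,
   fun h => ⟨fun i => cs_iff.2 (h.field i), h.orth, fun v hv => h.compl v (cs_iff.1 hv), h.inv,
    h.skew⟩⟩

theorem norm_fderiv_fderiv (f : E3 → E3) (x : E3) :
    ‖fderiv ℝ (fderiv ℝ f) x‖ = ‖iteratedFDeriv ℝ 2 f x‖ := by
  rw [← norm_iteratedFDeriv_fderiv (n := 1), norm_iteratedFDeriv_one]

theorem solD_iff {ι : Type} {Ω : Set E3} {ν : ℝ} {e : ι → E3 → E3} {σ : ι → ι} {s : ι → ℝ}
    {T : ℝ} {u : ℝ → E3 → E3} : SolD Ω ν e σ s T u ↔ SK.SolD Ω ν e σ s T u := by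
  constructor
  · intro h
    refine ⟨h.cont, h.zero, h.c2, h.dv, fun t ht => inH_iff.1 (h.inH t ht), ?_, h.eqn⟩
    intro T' hT'
    obtain ⟨M, hM⟩ := h.bdd T' hT'
    refine ⟨M, fun t ht x hx => ⟨?_, ?_, ?_⟩⟩
    · simpa using hM 0 (by norm_num) t ht x hx
    · have := hM 1 (by norm_num) t ht x hx
      rwa [norm_iteratedFDeriv_one] at this
    · rw [norm_fderiv_fderiv]
      exact hM 2 le_rfl t ht x hx
  · intro h
    refine ⟨h.cont, h.zero, h.c2, h.dv, fun t ht => inH_iff.2 (h.inH t ht), ?_, h.eqn⟩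
    intro T' hT'
    obtain ⟨M, hM⟩ := h.bdd T' hT'
    refine ⟨M, fun k hk t ht x hx => ?_⟩
    obtain ⟨h0, h1, h2⟩ := hM t ht x hx
    have hk' : k = 0 ∨ k = 1 ∨ k = 2 := by omega
    rcases hk' with rfl | rfl | rfl
    · simpa using h0
    · rwa [norm_iteratedFDeriv_one]
    · rwa [← norm_fderiv_fderiv]

theorem t_RES (ν : ℝ) (Ω : Set (EuclideanSpace ℝ (Fin 3))) (hν : 0 < ν) (hΩ : IsOpen Ω)
    (hb : Bornology.IsBounded Ω) (hne : Ω.Nonempty) :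
    ∃ (ι : Type) (e : ι → EuclideanSpace ℝ (Fin 3) → EuclideanSpace ℝ (Fin 3)) (σ : ι → ι)
      (s : ι → ℝ) (i₀ : ι) (T : ℝ) (u : ℝ → EuclideanSpace ℝ (Fin 3) → EuclideanSpace ℝ (Fin 3)),
      SkewD Ω e σ s ∧ 0 < T ∧ SolD Ω ν e σ s T u ∧ u 0 = e i₀ ∧ SmD T u ∧
      (∀ (T' : ℝ) (v : ℝ → EuclideanSpace ℝ (Fin 3) → EuclideanSpace ℝ (Fin 3)), 0 < T' →
        SolD Ω ν e σ s T' v → v 0 = e i₀ → T' ≤ T ∧ ∀ t ∈ Ico 0 T', v t = u t) ∧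
      (∀ t ∈ Ico 0 T, HasDerivWithinAt (fun τ => ipr (u τ) (u τ)) (-(2 * (ν * dirf (u t) (u t))))
        (Ico 0 T) t) ∧
      ∀ M : ℝ, ∃ t ∈ Ico 0 T, ∃ x, M < ‖u t x‖ := by
  obtain ⟨ι, e, σ, s, i₀, T, u, h1, h2, h3, h4, h5, h6, h7, h8, h9⟩ := SK.t_MAIN ν Ω hν hΩ hb hne
  refine ⟨ι, e, σ, s, i₀, T, u, skewD_iff.2 h1, h2, solD_iff.2 h3, h4, ⟨h5, h6⟩, ?_, h8, h9⟩
  intro T' v hT' hv hv0
  exact h7 T' v hT' (solD_iff.1 hv) hv0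

end Pool.Agent.Y303.SKR
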