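import Pool.Agent.Y6.N.Stm

/-!
Project SK: the Navier-Stokes equations with Dirichlet conditions in a bounded open set, with an
additional skew-adjoint linear term. Definitions.
-/

open Set Filter Topology MeasureTheory Metric

set_option autoImplicit false

namespace Pool.Agent.Y303.SK

open Pool.Agent.Y5 (E3)
open Pool.Agent.Y5.D (Ix qd vf3 Init)
open Pool.Agent.Y6.N
open Pool.Agent.Y6.K (Kz lv)

/-! ### Abstract kernels -/

/-- the rates of the main modes, as a function on all modes -/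
def rhI {J : Type} (ρ : ℕ → ℝ) : Ix J → ℝ
  | Sum.inl n => ρ n
  | Sum.inr _ => 0

/-- Kernels. `Sum.inl n` are the main modes, `Sum.inr w` the other modes; `g w ≤ n` means that the
mode `w` is linear on the support of the main mode `n`. `R`, `E` are arbitrary bounds. -/
structure KD {J : Type} (g : J → ℕ) (L C ℓ ρ : ℕ → ℝ) (B : ℕ → ℕ → ℝ) (R E : Ix J → ℝ)
    (D : Ix J → Ix J → ℝ) (c : Ix J → Ix J → Ix J → ℝ) : Prop where
  anti : ∀ j a b, c j a b = -c b a j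
  bil : ∀ (i : Ix J) (s : Finset (Ix J)) (z w : Ix J → ℝ),
    |∑ a ∈ s, ∑ b ∈ s, c i a b * z a * w b| ≤
      R i * (√(∑ a ∈ s, z a ^ 2) * √(∑ a ∈ s, w a ^ 2))
  tab : ∀ i j n, c (Sum.inl n) (Sum.inl i) (Sum.inl j) =
    (if i = n ∧ j < n then L j * B j n else 0)
    + (if i = j ∧ n < i then -(L n * B n i) else 0)
    + (if i = j ∧ n = i + 1 then L i * C i else 0)
    + (if i = n ∧ j = n + 1 then -(L n * C n) else 0)
  sepm : ∀ n a b, c (Sum.inl n) a b ≠ 0 → (∀ w, a = Sum.inr w → g w ≤ n) →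
    (∀ w, b = Sum.inr w → g w ≤ n) → ((∃ w, a = Sum.inr w) ∨ ∃ w, b = Sum.inr w) →
    a = Sum.inl n
  sepo : ∀ w n b, g w ≤ n → (∀ k, b = Sum.inl k → k < n) → (∀ j, b = Sum.inr j → g j ≤ n) →
    c (Sum.inr w) (Sum.inl n) b = 0 ∧ c (Sum.inr w) b (Sum.inl n) = 0
  symm : ∀ a b, D a b = D b a
  dlin : ∀ (i : Ix J) (s : Finset (Ix J)) (z : Ix J → ℝ),
    |∑ b ∈ s, D i b * z b| ≤ E i * √(∑ b ∈ s, z b ^ 2)
  dmain : ∀ m n, D (Sum.inl m) (Sum.inl n) = if m = n then ℓ n else 0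
  dsep : ∀ n w, g w ≤ n → D (Sum.inl n) (Sum.inr w) = 0
  coer : ∀ (s : Finset (Ix J)) (z : Ix J → ℝ),
    ∑ a ∈ s, rhI ρ a * z a ^ 2 ≤ ∑ a ∈ s, ∑ b ∈ s, D a b * z a * z b
  ρ0 : ∀ n, 0 ≤ ρ n
  ρinf : Tendsto ρ atTop atTop

/-- Solutions of the full system on `[0, T)`. -/
structure Sol {J : Type} (L : ℕ → ℝ) (o : J → ℕ) (σ : J → J) (τ : J → ℝ)
    (D : Ix J → Ix J → ℝ) (c : Ix J → Ix J → Ix J → ℝ) (β : J → ℝ) (S : ℕ → ℝ) (T : ℝ)
    (z : Ix J → ℝ → ℝ) : Prop where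
  deriv : ∀ i, ∀ t ∈ Ico 0 T, HasDerivWithinAt (z i)
    (Kz S o σ τ (fun a => z a t) i - lin D (fun a => z a t) i + qd c (fun a => z a t) i)
    (Ico 0 T) t
  init : Init z
  reg : ∀ k : ℕ, ∀ T' < T, ∃ X, ∀ t ∈ Icc 0 T', ∀ n, L n ^ k * |z (Sum.inl n) t| ≤ X
  en : ∀ t ∈ Ico 0 T, Summable (fun a => z a t ^ 2) ∧ ∑' a, z a t ^ 2 ≤ 1
  oth : ∀ w, ∀ t ∈ Ico 0 T, |z (Sum.inr w) t| ≤ β w
  big : ∀ n, ∃ t ∈ Ico 0 T, (8 / 1000) ^ n ≤ z (Sum.inl n) t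

/-! ### Fields on the space `ℝ³` -/

/-- coordinate vectors -/
noncomputable abbrev cv (i : Fin 3) : E3 := EuclideanSpace.single i (1 : ℝ)

/-- the divergence -/
noncomputable def dvg (v : E3 → E3) (x : E3) : ℝ := ∑ i : Fin 3, (fderiv ℝ v x (cv i)) i

/-- smooth divergence-free fields with compact support in `Ω` -/
structure CS (Ω : Set E3) (v : E3 → E3) : Prop where
  smooth : ContDiff ℝ (⊤ : ℕ∞) v
  cpt : HasCompactSupport v
  supp : tsupport v ⊆ Ω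
  dv : ∀ x, dvg v x = 0

/-- `∫ v · w` -/
noncomputable def ipr (v w : E3 → E3) : ℝ := ∫ x, inner ℝ (v x) (w x)

/-- `∫ ∇v : ∇w` -/
noncomputable def dirf (v w : E3 → E3) : ℝ :=
  ∫ x, ∑ i : Fin 3, inner ℝ (fderiv ℝ v x (cv i)) (fderiv ℝ w x (cv i))

/-- `∫ ((u · ∇) v) · w` -/
noncomputable def adv (u v w : E3 → E3) : ℝ := ∫ x, inner ℝ (fderiv ℝ v x (u x)) (w x)

/-- the linear map with the matrix `diag (1, 1, -2)` -/
noncomputable def Sm : E3 →L[ℝ] E3 :=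
  LinearMap.toContinuousLinearMap
    { toFun := fun x => WithLp.toLp 2 ![x 0, x 1, -2 * x 2]
      map_add' := fun x y => by ext i; fin_cases i <;> simp <;> ring
      map_smul' := fun r x => by ext i; fin_cases i <;> simp <;> ring }

/-- The two packets: `Ψ` is equal to `a • Sm x` near the origin, `H` lives in the region where
`Ψ` is linear. -/
structure Pk (Ψ H : E3 → E3) (a κ h q q' : ℝ) : Prop where
  a0 : 0 < a
  κ0 : 0 < κ
  h0 : 0 < h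
  q'0 : 0 < q'
  qq : q' < q
  q1 : q < 1
  Ψcs : CS (ball 0 1) Ψ
  Ψlin : ∀ x ∈ ball (0 : E3) q, Ψ x = a • Sm x
  Ψn : ipr Ψ Ψ = 1
  Ψk : ∫ x, inner ℝ (Sm (Ψ x)) (Ψ x) = -κ
  Hcs : CS (ball 0 q \ closedBall 0 q') H
  Hn : ipr H H = 1
  Hh : ∫ x, inner ℝ (Sm (H x)) (H x) = h

/-- the rescaled field `r^(-3/2) F((x - p)/r)` -/
noncomputable def sc (p : E3) (r : ℝ) (F : E3 → E3) (x : E3) : E3 :=
  (r * √r)⁻¹ • F (r⁻¹ • (x - p))

/-- the main modes -/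
noncomputable def psi (p : E3) (Ψ H : E3 → E3) (r α ε : ℕ → ℝ) (n : ℕ) (x : E3) : E3 :=
  α n • sc p (r n) Ψ x + ε n • sc p (r (n + 1)) H x

/-- Parameters: radii `r`, amplitudes `α`, `ε`. -/
structure Par (a κ h q' G δ : ℝ) (r α ε lm L : ℕ → ℝ) : Prop where
  r0 : ∀ n, 0 < r n
  rstep : ∀ n, r (n + 1) ≤ q' * r n
  rδ : r 0 ≤ δ
  α0 : ∀ n, 0 < α n
  ε0 : ∀ n, 0 < ε n
  αε : ∀ n, α n ^ 2 + ε n ^ 2 = 1
  Lr : ∀ n, L n * (r n ^ 2 * √(r n)) = κ * a * α n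
  εr : ∀ n, ε n ^ 2 * r n ^ 2 ≤ r (n + 1) ^ 2
  seq : ∀ ℓ : ℕ → ℝ, (∀ n, 0 ≤ ℓ n ∧ ℓ n * r n ^ 2 ≤ G) →
    Seq lm L (fun n => ε n ^ 2 * (h / κ) * (L (n + 1) / L n)) ℓ (fun _ => 1)
      (fun _ n => α n ^ 2 - ε n ^ 2 * (h / κ))
  Lpol : ∀ n, L (n + 1) ≤ L n ^ 2
  small : ∀ M : ℝ, ∃ n, M * (r n * √(r n)) < (8 / 1000) ^ n
  inf : Tendsto (fun n => (2 ^ n * r n ^ 2)⁻¹) atTop atTop

/-- On the ball of radius `r` the field is `s • Sm (x - p) + θ • H_r`. -/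
def Low (p : E3) (r : ℝ) (H : E3 → E3) (f : E3 → E3) (s θ : ℝ) : Prop :=
  ∀ x ∈ ball p r, f x = s • Sm (x - p) + θ • sc p r H x

/-- all the modes -/
def em {J : Type} (ψ : ℕ → E3 → E3) (w : J → E3 → E3) : Ix J → E3 → E3 := Sum.elim ψ w

/-- The other modes: together with the fields `ψ n` they form a complete orthonormal system of
smooth compactly supported divergence-free fields; they are linear near `p`. -/
structure Bas {J : Type} (Ω : Set E3) (p : E3) (ψ : ℕ → E3 → E3) (w : J → E3 → E3) : Prop where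
  cs : ∀ j, CS Ω (w j)
  lin : ∀ j, ∃ s ρ : ℝ, 0 < ρ ∧ ∀ x ∈ ball p ρ, w j x = s • Sm (x - p)
  orth : ∀ i j, (i = j → ipr (w i) (w j) = 1) ∧ (i ≠ j → ipr (w i) (w j) = 0)
  perp : ∀ n j, ipr (ψ n) (w j) = 0
  compl : ∀ v, CS Ω v → ∀ ε > 0, ∃ (F : Finset (Ix J)) (b : Ix J → ℝ),
    ∫ x, ‖v x - ∑ a ∈ F, b a • em ψ w a x‖ ^ 2 < ε

/-- the coefficients of the nonlinear term -/
noncomputable def cc {I : Type} (e : I → E3 → E3) (i a b : I) : ℝ := -adv (e a) (e b) (e i)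

/-- the matrix of `-ν Δ` -/
noncomputable def DD {I : Type} (ν : ℝ) (e : I → E3 → E3) (a b : I) : ℝ := ν * dirf (e a) (e b)

/-- supremum of the norm of the derivative of order `k` -/
noncomputable def nk (k : ℕ) (f : E3 → E3) : ℝ := ⨆ x, ‖iteratedFDeriv ℝ k f x‖

/-- the series `∑ z a • e a` -/
noncomputable def ser {I : Type} (e : I → E3 → E3) (z : I → ℝ) (x : E3) : E3 := ∑' a, z a • e a x

/-! ### The equations -/

/-- The space `H`: the closure in `L²` of the smooth compactly supported divergence-free fields. -/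
def InH (Ω : Set E3) (v : E3 → E3) : Prop :=
  MemLp v 2 volume ∧ ∀ ε > 0, ∃ w, CS Ω w ∧ ∫ x, ‖v x - w x‖ ^ 2 < ε

/-- The skew-adjoint linear operator `K = ∑ s i ⟨·, e (σ i)⟩ e i`: here `e i` is a complete
orthonormal system of `H` which consists of smooth compactly supported divergence-free fields,
`σ` is an involution and `s (σ i) = - s i`. -/
structure SkewD {ι : Type} (Ω : Set E3) (e : ι → E3 → E3) (σ : ι → ι) (s : ι → ℝ) : Prop where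
  field : ∀ i, CS Ω (e i)
  orth : ∀ i j, (i = j → ipr (e i) (e j) = 1) ∧ (i ≠ j → ipr (e i) (e j) = 0)
  compl : ∀ v, CS Ω v → ∀ ε > 0, ∃ (F : Finset ι) (b : ι → ℝ),
    ∫ x, ‖v x - ∑ a ∈ F, b a • e a x‖ ^ 2 < ε
  inv : ∀ i, σ (σ i) = i
  skew : ∀ i, s (σ i) = -s i

/-- Classical solutions on `[0, T)` of `∂ₜ u + (u · ∇) u + ∇p = ν Δ u + K u`, `div u = 0` in `Ω`,
`u = 0` on `∂Ω` (extended by zero; the equation is tested with the complete system `e`; the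
derivatives of order `≤ 2` are bounded in `Ω`, locally uniformly in time). -/
structure SolD {ι : Type} (Ω : Set E3) (ν : ℝ) (e : ι → E3 → E3) (σ : ι → ι) (s : ι → ℝ)
    (T : ℝ) (u : ℝ → E3 → E3) : Prop where
  cont : ∀ t ∈ Ico 0 T, Continuous (u t)
  zero : ∀ t ∈ Ico 0 T, ∀ x ∉ Ω, u t x = 0
  c2 : ∀ t ∈ Ico 0 T, ContDiffOn ℝ 2 (u t) Ω
  dv : ∀ t ∈ Ico 0 T, ∀ x ∈ Ω, dvg (u t) x = 0
  inH : ∀ t ∈ Ico 0 T, InH Ω (u t)
  bdd : ∀ T' < T, ∃ M, ∀ t ∈ Icc 0 T', ∀ x ∈ Ω,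
    ‖u t x‖ ≤ M ∧ ‖fderiv ℝ (u t) x‖ ≤ M ∧ ‖fderiv ℝ (fderiv ℝ (u t)) x‖ ≤ M
  eqn : ∀ i, ∀ t ∈ Ico 0 T, HasDerivWithinAt (fun τ => ipr (u τ) (e i))
    (s i * ipr (u t) (e (σ i)) - ν * dirf (u t) (e i) - adv (u t) (u t) (e i)) (Ico 0 T) t

end Pool.Agent.Y303.SK
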