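import Pool.Agent.Y303.SK.Blow

/-! Project SK: final assembly. -/

open Set Filter Topology MeasureTheory Metric

set_option autoImplicit false

namespace Pool.Agent.Y303.SK

open Pool.Agent.Y5 (E3)
open Pool.Agent.Y5.D (Ix qd vf3 Init)
open Pool.Agent.Y6.N
open Pool.Agent.Y6.K (Kz lv)

lemma CS.mono {Ω Ω' : Set E3} {v : E3 → E3} (h : CS Ω v) (hs : Ω ⊆ Ω') : CS Ω' v :=
  ⟨h.smooth, h.cpt, h.supp.trans hs, h.dv⟩

lemma CS.zero_of {Ω : Set E3} {v : E3 → E3} (h : CS Ω v) {x : E3} (hx : x ∉ Ω) : v x = 0 :=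
  image_eq_zero_of_notMem_tsupport fun h1 => hx (h.supp h1)

lemma CS.nk_bdd {Ω : Set E3} {v : E3 → E3} (h : CS Ω v) (k : ℕ) :
    BddAbove (range fun x => ‖iteratedFDeriv ℝ k v x‖) := by
  have h1 : Continuous (iteratedFDeriv ℝ k v) := h.smooth.continuous_iteratedFDeriv (by
    exact_mod_cast le_top)
  have h2 : HasCompactSupport (iteratedFDeriv ℝ k v) := h.cpt.iteratedFDeriv k
  obtain ⟨C, hC⟩ := h1.bounded_above_of_compact_support h2
  exact ⟨C, by rintro _ ⟨x, rfl⟩; exact hC x⟩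

lemma nk_nonneg (k : ℕ) (v : E3 → E3) : 0 ≤ nk k v :=
  Real.iSup_nonneg fun _ => norm_nonneg _

lemma dirf_nonneg (v : E3 → E3) : 0 ≤ dirf v v :=
  integral_nonneg fun x => Finset.sum_nonneg fun i _ => real_inner_self_nonneg

lemma par_mono {a κ h q' G G' δ : ℝ} {r α ε lm L : ℕ → ℝ} (hG : G ≤ G')
    (P : Par a κ h q' G' δ r α ε lm L) : Par a κ h q' G δ r α ε lm L :=
  { r0 := P.r0, rstep := P.rstep, rδ := P.rδ, α0 := P.α0, ε0 := P.ε0, αε := P.αε, Lr := P.Lr,
    εr := P.εr, seq := fun ℓ hℓ => P.seq ℓ fun n => ⟨(hℓ n).1, (hℓ n).2.trans hG⟩,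
    Lpol := P.Lpol, small := P.small, inf := P.inf }

/-- a field of norm one in a small ball against a bounded field -/
lemma ipr_small {p : E3} {r M : ℝ} {u ψ : E3 → E3} (hr : 0 < r) (hψ : CS (ball p r) ψ)
    (hn : ipr ψ ψ = 1) (hM : ∀ x, ‖u x‖ ≤ M) :
    ipr u ψ ≤ M * √((volume (ball (0 : E3) 1)).toReal) * (r * √r) := by
  have hM0 : 0 ≤ M := (norm_nonneg _).trans (hM 0)
  have hc : Continuous ψ := hψ.smooth.continuous
  have hsq : Integrable (fun x => ‖ψ x‖ ^ 2) volume := by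
    have h1 : Continuous (fun x => ‖ψ x‖ ^ 2) := by fun_prop
    have h2 : HasCompactSupport (fun x => ‖ψ x‖ ^ 2) := by
      refine hψ.cpt.mono' fun x hx => subset_tsupport _ ?_
      intro h0
      have h0 : ψ x = 0 := h0
      apply hx
      simp [h0]
    exact h1.integrable_of_hasCompactSupport h2
  have hn' : ∫ x, ‖ψ x‖ ^ 2 = 1 := by
    refine Eq.trans ?_ hn
    refine integral_congr_ae (Eventually.of_forall fun x => ?_)
    exact (real_inner_self_eq_norm_sq (ψ x)).symm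
  set m := (volume (ball p r)).toReal with hm
  have hm0 : 0 ≤ m := ENNReal.toReal_nonneg
  have key : ∀ t : ℝ, 0 < t → ipr u ψ ≤ M ^ 2 * m / (2 * t) + t / 2 := by
    intro t ht
    have h1 : |ipr u ψ| ≤ ∫ x, ‖(inner ℝ (u x) (ψ x) : ℝ)‖ := by
      unfold ipr
      exact norm_integral_le_integral_norm (fun x => (inner ℝ (u x) (ψ x) : ℝ))
    have hi1 : Integrable (fun x => (ball p r).indicator (fun _ => M ^ 2 / (2 * t)) x) volume := by
      refine (integrable_indicator_iff measurableSet_ball).2 ?_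
      exact integrableOn_const (measure_ball_lt_top.ne)
    have hi2 : Integrable (fun x => t / 2 * ‖ψ x‖ ^ 2) volume := hsq.const_mul _
    have h2 : ∫ x, ‖(inner ℝ (u x) (ψ x) : ℝ)‖ ≤
        ∫ x, ((ball p r).indicator (fun _ => M ^ 2 / (2 * t)) x + t / 2 * ‖ψ x‖ ^ 2) := by
      refine integral_mono_of_nonneg (Eventually.of_forall fun x => norm_nonneg _)
        (hi1.add hi2) (Eventually.of_forall fun x => ?_)
      by_cases hx : x ∈ ball p r
      · simp only [indicator_of_mem hx]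
        refine (norm_inner_le_norm _ _).trans ?_
        have h3 : ‖u x‖ * ‖ψ x‖ ≤ M * ‖ψ x‖ := mul_le_mul_of_nonneg_right (hM x) (norm_nonneg _)
        refine h3.trans ?_
        have h4 : 0 ≤ (M - t * ‖ψ x‖) ^ 2 := sq_nonneg _
        rw [div_add' _ _ _ (by positivity), le_div_iff₀ (by positivity)]
        nlinarith
      · simp only [indicator_of_notMem hx, hψ.zero_of hx]
        simp
    rw [integral_add hi1 hi2, integral_indicator measurableSet_ball, setIntegral_const,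
      integral_const_mul, hn'] at h2
    have h3 := (le_abs_self _).trans (h1.trans h2)
    refine h3.trans (le_of_eq ?_)
    simp only [smul_eq_mul, Measure.real]
    rw [← hm]
    ring
  have hvol : m = (volume (ball (0 : E3) 1)).toReal * r ^ 3 := by
    rw [hm, Measure.addHaar_ball volume p hr.le, ENNReal.toReal_mul,
      ENNReal.toReal_ofReal (by positivity)]
    have : Module.finrank ℝ E3 = 3 := by simp [E3]
    rw [this]
    ring
  have e1 : √(M ^ 2 * m) = M * √((volume (ball (0 : E3) 1)).toReal) * (r * √r) := by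
    have e2 : M ^ 2 * m = (M * √((volume (ball (0 : E3) 1)).toReal) * (r * √r)) ^ 2 := by
      rw [mul_pow, mul_pow, mul_pow, Real.sq_sqrt hr.le, Real.sq_sqrt ENNReal.toReal_nonneg, hvol]
      ring
    rw [e2, Real.sqrt_sq (by positivity)]
  rw [← e1]
  set A := M ^ 2 * m with hA
  have hA0 : 0 ≤ A := by positivity
  refine le_of_forall_pos_le_add fun δ hδ => ?_
  have hs := Real.sqrt_nonneg A
  have h5 := key (√A + δ) (by linarith)
  refine h5.trans ?_
  have h6 : A / (2 * (√A + δ)) ≤ √A / 2 := by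
    rw [div_le_div_iff₀ (by linarith) (by norm_num)]
    have h7 : √A * √A = A := Real.mul_self_sqrt hA0
    nlinarith
  linarith

/-- restriction to a shorter time interval -/
lemma SolD.mono {ι : Type} {Ω : Set E3} {ν : ℝ} {e : ι → E3 → E3} {σ : ι → ι} {s : ι → ℝ}
    {T T' : ℝ} {u : ℝ → E3 → E3} (h : SolD Ω ν e σ s T u) (hT : T' ≤ T) :
    SolD Ω ν e σ s T' u :=
  { cont := fun t ht => h.cont t ⟨ht.1, ht.2.trans_le hT⟩
    zero := fun t ht => h.zero t ⟨ht.1, ht.2.trans_le hT⟩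
    c2 := fun t ht => h.c2 t ⟨ht.1, ht.2.trans_le hT⟩
    dv := fun t ht => h.dv t ⟨ht.1, ht.2.trans_le hT⟩
    inH := fun t ht => h.inH t ⟨ht.1, ht.2.trans_le hT⟩
    bdd := fun T'' hT'' => h.bdd T'' (hT''.trans_le hT)
    eqn := fun i t ht => (h.eqn i t ⟨ht.1, ht.2.trans_le hT⟩).mono (Ico_subset_Ico_right hT) }

/-! ### The rotation of the other modes -/

/-- level -/
def oo (j : ℕ × Bool) : ℕ := j.1
/-- partner -/
def ss (j : ℕ × Bool) : ℕ × Bool := (j.1, !j.2)
/-- sign -/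
noncomputable def tt (j : ℕ × Bool) : ℝ := if j.2 then 1 else -1

lemma rot : Rot oo ss tt := by
  refine ⟨?_, ?_, ?_, ?_, ?_⟩
  · rintro ⟨k, b⟩; simp [ss]
  · rintro ⟨k, b⟩; rfl
  · rintro ⟨k, b⟩; cases b <;> simp [ss, tt]
  · rintro ⟨k, b⟩; cases b <;> simp [tt]
  · intro m
    refine ((Set.finite_Iic m).prod (Set.finite_univ (α := Bool))).subset ?_
    rintro ⟨k, b⟩ h
    exact ⟨h, trivial⟩

lemma summ_two : Summable (fun j : ℕ × Bool => (1 / 2 : ℝ) ^ j.1) := by
  have h1 : Summable (fun n : ℕ => (1 / 2 : ℝ) ^ n) := summable_geometric_two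
  have h2 : Summable (fun _ : Bool => (1 : ℝ)) := Summable.of_finite
  have := h1.mul_of_nonneg h2 (fun _ => by positivity) (fun _ => by positivity)
  simpa using this

/-- bounds for the other modes -/
noncomputable def bet (w : ℕ × Bool → E3 → E3) (j : ℕ × Bool) : ℝ :=
  (1 / 2) ^ j.1 / (1 + ∑ k ∈ Finset.range (j.1 + 1), nk k (w j))

lemma bet_den (w : ℕ × Bool → E3 → E3) (j : ℕ × Bool) :
    1 ≤ 1 + ∑ k ∈ Finset.range (j.1 + 1), nk k (w j) := by
  have : 0 ≤ ∑ k ∈ Finset.range (j.1 + 1), nk k (w j) :=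
    Finset.sum_nonneg fun k _ => nk_nonneg k _
  linarith

lemma bet_pos (w : ℕ × Bool → E3 → E3) (j : ℕ × Bool) : 0 < bet w j :=
  div_pos (by positivity) (by linarith [bet_den w j])

lemma bet_le (w : ℕ × Bool → E3 → E3) (j : ℕ × Bool) : bet w j ≤ (1 / 2) ^ j.1 :=
  div_le_self (by positivity) (bet_den w j)

lemma bet_summ (w : ℕ × Bool → E3 → E3) : Summable (bet w) :=
  Summable.of_nonneg_of_le (fun j => (bet_pos w j).le) (bet_le w) summ_two

lemma bet_nk (w : ℕ × Bool → E3 → E3) (k : ℕ) : Summable (fun j => bet w j * nk k (w j)) := by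
  refine Summable.of_norm_bounded_eventually summ_two ?_
  have hfin : {j : ℕ × Bool | j.1 < k}.Finite := by
    refine ((Set.finite_Iio k).prod (Set.finite_univ (α := Bool))).subset ?_
    rintro ⟨m, b⟩ h
    exact ⟨h, trivial⟩
  refine (hfin.subset ?_)
  intro j hj
  by_contra hcon
  have hcon : ¬ j.1 < k := hcon
  apply hj
  show ‖bet w j * nk k (w j)‖ ≤ (1 / 2) ^ j.1
  rw [Real.norm_eq_abs, abs_of_nonneg (mul_nonneg (bet_pos w j).le (nk_nonneg _ _))]
  unfold bet
  rw [div_mul_eq_mul_div, div_le_iff₀ (by linarith [bet_den w j])]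
  refine mul_le_mul_of_nonneg_left ?_ (by positivity)
  have h1 : nk k (w j) ≤ ∑ k ∈ Finset.range (j.1 + 1), nk k (w j) :=
    Finset.single_le_sum (f := fun k => nk k (w j)) (fun k _ => nk_nonneg k _)
      (Finset.mem_range.2 (by omega))
  linarith

end Pool.Agent.Y303.SK
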