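import Pool.Agent.Y303.SK.XDefs
import Pool.Agent.Y303.SK.Fin

/-! Project SKX: the main theorem from the steps. -/

open Set Filter Topology MeasureTheory Metric

set_option autoImplicit false

namespace Pool.Agent.Y303.SK

open Pool.Agent.Y5 (E3)
open Pool.Agent.Y5.D (Ix qd vf3 Init)
open Pool.Agent.Y6.N
open Pool.Agent.Y6.K (Kz lv)

/-! ### Symmetric fields -/

lemma rtz_zero (θ : ℝ) : rtz θ 0 = 0 := by
  ext i; fin_cases i <;> simp [rtz]

lemma rtz_smul (θ c : ℝ) (x : E3) : rtz θ (c • x) = c • rtz θ x := by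
  ext i; fin_cases i <;> simp [rtz] <;> ring

lemma rtz_add (θ : ℝ) (x y : E3) : rtz θ (x + y) = rtz θ x + rtz θ y := by
  ext i; fin_cases i <;> simp [rtz] <;> ring

lemma Pol.add {u v : E3 → E3} (hu : Pol u) (hv : Pol v) : Pol (fun x => u x + v x) := by
  refine ⟨fun θ x => ?_, fun x => ?_⟩
  · show u (rtz θ x) + v (rtz θ x) = rtz θ (u x + v x)
    rw [hu.axi, hv.axi, rtz_add]
  · have h1 := hu.swirl x
    have h2 := hv.swirl x
    show x 0 * (u x + v x) 1 - x 1 * (u x + v x) 0 = 0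
    simp only [PiLp.add_apply]
    linarith

lemma Pol.smul {u : E3 → E3} (hu : Pol u) (c : ℝ) : Pol (fun x => c • u x) := by
  refine ⟨fun θ x => ?_, fun x => ?_⟩
  · show c • u (rtz θ x) = rtz θ (c • u x)
    rw [hu.axi, rtz_smul]
  · have h1 := hu.swirl x
    show x 0 * (c • u x) 1 - x 1 * (c • u x) 0 = 0
    simp only [PiLp.smul_apply, smul_eq_mul]
    linear_combination c * h1

lemma Pol.sc {u : E3 → E3} (hu : Pol u) {r : ℝ} (hr : 0 < r) : Pol (sc 0 r u) := by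
  refine ⟨fun θ x => ?_, fun x => ?_⟩
  · unfold SK.sc
    rw [sub_zero, sub_zero, ← rtz_smul, hu.axi, rtz_smul]
  · have h1 := hu.swirl (r⁻¹ • (x - 0))
    rw [sub_zero] at h1
    simp only [PiLp.smul_apply, smul_eq_mul] at h1
    have h2 : x 0 * u (r⁻¹ • x) 1 - x 1 * u (r⁻¹ • x) 0 = 0 := by
      have h3 : r⁻¹ * (x 0 * u (r⁻¹ • x) 1 - x 1 * u (r⁻¹ • x) 0) = 0 := by linarith
      rcases mul_eq_zero.1 h3 with h4 | h4
      · exact absurd h4 (inv_ne_zero hr.ne')
      · exact h4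
    unfold SK.sc
    rw [sub_zero]
    simp only [PiLp.smul_apply, smul_eq_mul]
    linear_combination (r * √r)⁻¹ * h2

/-! ### Sizes -/

lemma l2_nonneg (k : ℕ) (f : E3 → E3) : 0 ≤ l2 k f := Real.sqrt_nonneg _

lemma l2_le {p : E3} {R : ℝ} {f : E3 → E3} (hf : CS (ball p R) f) (k : ℕ) :
    l2 k f ≤ nk k f * √((volume (ball p R)).toReal) := by
  have hN0 := nk_nonneg k f
  have hN : ∀ x, ‖iteratedFDeriv ℝ k f x‖ ≤ nk k f := fun x => le_ciSup (hf.nk_bdd k) x
  have hz : ∀ x, x ∉ ball p R → ‖iteratedFDeriv ℝ k f x‖ ^ 2 = 0 := by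
    intro x hx
    have h1 : x ∉ tsupport (iteratedFDeriv ℝ k f) := fun h =>
      hx (hf.supp (tsupport_iteratedFDeriv_subset k h))
    rw [image_eq_zero_of_notMem_tsupport h1]
    simp
  unfold l2
  have h2 : ∫ x, ‖iteratedFDeriv ℝ k f x‖ ^ 2 ≤ nk k f ^ 2 * (volume (ball p R)).toReal := by
    rw [← setIntegral_eq_integral_of_forall_compl_eq_zero (s := ball p R) hz]
    have hfin : volume (ball p R) ≠ ⊤ := measure_ball_lt_top.ne
    calc ∫ x in ball p R, ‖iteratedFDeriv ℝ k f x‖ ^ 2 ≤ ∫ _ in ball p R, nk k f ^ 2 := by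
          refine integral_mono_of_nonneg (Eventually.of_forall fun x => by positivity)
            (integrableOn_const hfin) (Eventually.of_forall fun x => ?_)
          exact pow_le_pow_left₀ (norm_nonneg _) (hN x) 2
      _ = _ := by
          rw [setIntegral_const]
          simp only [smul_eq_mul, Measure.real]
          ring
  calc √(∫ x, ‖iteratedFDeriv ℝ k f x‖ ^ 2) ≤ √(nk k f ^ 2 * (volume (ball p R)).toReal) :=
        Real.sqrt_le_sqrt h2
    _ = _ := by rw [Real.sqrt_mul (sq_nonneg _), Real.sqrt_sq hN0]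

/-- bounds for the other modes -/
noncomputable def btx (w : ℕ × Bool → E3 → E3) (j : ℕ × Bool) : ℝ :=
  (1 / 2) ^ j.1 / (1 + ∑ k ∈ Finset.range (j.1 + 1), (nk k (w j) + l2 k (w j)))

lemma btx_den (w : ℕ × Bool → E3 → E3) (j : ℕ × Bool) :
    1 ≤ 1 + ∑ k ∈ Finset.range (j.1 + 1), (nk k (w j) + l2 k (w j)) := by
  have : 0 ≤ ∑ k ∈ Finset.range (j.1 + 1), (nk k (w j) + l2 k (w j)) :=
    Finset.sum_nonneg fun k _ => add_nonneg (nk_nonneg k _) (l2_nonneg k _)
  linarith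

lemma btx_pos (w : ℕ × Bool → E3 → E3) (j : ℕ × Bool) : 0 < btx w j :=
  div_pos (by positivity) (by linarith [btx_den w j])

lemma btx_le (w : ℕ × Bool → E3 → E3) (j : ℕ × Bool) : btx w j ≤ (1 / 2) ^ j.1 :=
  div_le_self (by positivity) (btx_den w j)

lemma btx_summ (w : ℕ × Bool → E3 → E3) : Summable (btx w) :=
  Summable.of_nonneg_of_le (fun j => (btx_pos w j).le) (btx_le w) summ_two

lemma btx_nk (w : ℕ × Bool → E3 → E3) (k : ℕ) :
    Summable (fun j => btx w j * (nk k (w j) + l2 k (w j))) := by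
  refine Summable.of_norm_bounded_eventually summ_two ?_
  have hfin : {j : ℕ × Bool | j.1 < k}.Finite := by
    refine ((Set.finite_Iio k).prod (Set.finite_univ (α := Bool))).subset ?_
    rintro ⟨m, b⟩ h
    exact ⟨h, trivial⟩
  refine (hfin.subset ?_)
  intro j hj
  by_contra hcon
  have hcon : ¬ j.1 < k := hcon
  apply hj
  show ‖btx w j * (nk k (w j) + l2 k (w j))‖ ≤ (1 / 2) ^ j.1
  have h0 : 0 ≤ nk k (w j) + l2 k (w j) := add_nonneg (nk_nonneg k _) (l2_nonneg k _)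
  rw [Real.norm_eq_abs, abs_of_nonneg (mul_nonneg (btx_pos w j).le h0)]
  unfold btx
  rw [div_mul_eq_mul_div, div_le_iff₀ (by linarith [btx_den w j])]
  refine mul_le_mul_of_nonneg_left ?_ (by positivity)
  have h1 : nk k (w j) + l2 k (w j) ≤
      ∑ k ∈ Finset.range (j.1 + 1), (nk k (w j) + l2 k (w j)) :=
    Finset.single_le_sum (f := fun k => nk k (w j) + l2 k (w j))
      (fun k _ => add_nonneg (nk_nonneg k _) (l2_nonneg k _)) (Finset.mem_range.2 (by omega))
  linarith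

/-- restriction to a shorter time interval -/
lemma SolX.mono {ι : Type} {ν : ℝ} {e : ι → E3 → E3} {σ : ι → ι} {s : ι → ℝ}
    {T T' : ℝ} {u : ℝ → E3 → E3} (h : SolX ν e σ s T u) (hT : T' ≤ T) :
    SolX ν e σ s T' u :=
  { smooth := fun t ht => h.smooth t ⟨ht.1, ht.2.trans_le hT⟩
    axi := fun t ht => h.axi t ⟨ht.1, ht.2.trans_le hT⟩
    dv := fun t ht => h.dv t ⟨ht.1, ht.2.trans_le hT⟩
    bdd := fun k T'' hT'' => h.bdd k T'' (hT''.trans_le hT)
    eqn := fun i t ht => (h.eqn i t ⟨ht.1, ht.2.trans_le hT⟩).mono (Ico_subset_Ico_right hT) }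

lemma CS.cont {Ω : Set E3} {v : E3 → E3} (h : CS Ω v) : Continuous v := h.smooth.continuous

/-- finite combinations -/
lemma comb_cs {I : Type} {e : I → E3 → E3} (he : ∀ a, CS univ (e a)) (b : I → ℝ)
    (F : Finset I) : Continuous (fun x => ∑ a ∈ F, b a • e a x) ∧
      HasCompactSupport (fun x => ∑ a ∈ F, b a • e a x) := by
  classical
  induction F using Finset.induction_on with
  | empty =>
    refine ⟨by simpa using (continuous_const : Continuous (fun _ : E3 => (0 : E3))), ?_⟩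
    show HasCompactSupport (fun x : E3 => ∑ a ∈ (∅ : Finset I), b a • e a x)
    rw [hasCompactSupport_def]
    simp
  | insert a F ha ih =>
    simp only [Finset.sum_insert ha]
    have h30 : Continuous (e a) := (he a).cont
    have h3 : Continuous (fun x => b a • e a x) := by fun_prop
    have h4 : HasCompactSupport (fun x => b a • e a x) := by
      refine (he a).cpt.mono' fun x hx => subset_tsupport _ ?_
      intro h0
      have h0 : e a x = 0 := h0
      apply hx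
      simp [h0]
    exact ⟨h3.add ih.1, h4.add ih.2⟩

lemma comb_int {I : Type} {e : I → E3 → E3} (he : ∀ a, CS univ (e a)) {v : E3 → E3}
    (hv : CS univ v) (F : Finset I) (b : I → ℝ) :
    Integrable (fun x => ‖v x - ∑ a ∈ F, b a • e a x‖ ^ 2) volume := by
  obtain ⟨g1, g2⟩ := comb_cs he b F
  have h1 : Continuous (fun x => v x - ∑ a ∈ F, b a • e a x) := hv.cont.sub g1
  have h2 : HasCompactSupport (fun x => v x - ∑ a ∈ F, b a • e a x) := hv.cpt.sub g2
  have h5 : HasCompactSupport (fun x => ‖v x - ∑ a ∈ F, b a • e a x‖ ^ 2) := by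
    refine h2.mono' fun x hx => subset_tsupport _ ?_
    intro h0
    have h0 : v x - ∑ a ∈ F, b a • e a x = 0 := h0
    apply hx
    simp [h0]
  exact (h1.norm.pow 2).integrable_of_hasCompactSupport h5

/-- completeness of the union of two systems -/
lemma compl_sum {I J : Type} {e : I → E3 → E3} {g : J → E3 → E3} (he : ∀ a, CS univ (e a))
    (hg : ∀ a, CS univ (g a)) {v v₁ v₂ : E3 → E3} (h1 : CS univ v₁) (h2 : CS univ v₂)
    (hv : ∀ x, v x = v₁ x + v₂ x)
    (H1 : ∀ ε > 0, ∃ (F : Finset I) (b : I → ℝ), ∫ x, ‖v₁ x - ∑ a ∈ F, b a • e a x‖ ^ 2 < ε)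
    (H2 : ∀ ε > 0, ∃ (F : Finset J) (b : J → ℝ), ∫ x, ‖v₂ x - ∑ a ∈ F, b a • g a x‖ ^ 2 < ε) :
    ∀ ε > 0, ∃ (F : Finset (I ⊕ J)) (b : I ⊕ J → ℝ),
      ∫ x, ‖v x - ∑ a ∈ F, b a • (Sum.elim e g a) x‖ ^ 2 < ε := by
  intro ε hε
  obtain ⟨F₁, b₁, hb₁⟩ := H1 (ε / 4) (by linarith)
  obtain ⟨F₂, b₂, hb₂⟩ := H2 (ε / 4) (by linarith)
  refine ⟨F₁.disjSum F₂, Sum.elim b₁ b₂, ?_⟩
  have i1 := comb_int he h1 F₁ b₁
  have i2 := comb_int hg h2 F₂ b₂
  have hle : ∫ x, ‖v x - ∑ a ∈ F₁.disjSum F₂, (Sum.elim b₁ b₂ a) • (Sum.elim e g a) x‖ ^ 2 ≤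
      ∫ x, (2 * ‖v₁ x - ∑ a ∈ F₁, b₁ a • e a x‖ ^ 2 +
        2 * ‖v₂ x - ∑ a ∈ F₂, b₂ a • g a x‖ ^ 2) := by
    refine integral_mono_of_nonneg (Eventually.of_forall fun x => by positivity)
      ((i1.const_mul 2).add (i2.const_mul 2)) (Eventually.of_forall fun x => ?_)
    have e1 : v x - ∑ a ∈ F₁.disjSum F₂, (Sum.elim b₁ b₂ a) • (Sum.elim e g a) x =
        (v₁ x - ∑ a ∈ F₁, b₁ a • e a x) + (v₂ x - ∑ a ∈ F₂, b₂ a • g a x) := by
      rw [Finset.sum_disjSum, hv x]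
      simp only [Sum.elim_inl, Sum.elim_inr]
      abel
    show ‖v x - ∑ a ∈ F₁.disjSum F₂, (Sum.elim b₁ b₂ a) • (Sum.elim e g a) x‖ ^ 2 ≤ _
    rw [e1]
    have h3 := norm_add_le (v₁ x - ∑ a ∈ F₁, b₁ a • e a x) (v₂ x - ∑ a ∈ F₂, b₂ a • g a x)
    have h4 : ‖(v₁ x - ∑ a ∈ F₁, b₁ a • e a x) + (v₂ x - ∑ a ∈ F₂, b₂ a • g a x)‖ ^ 2 ≤
        (‖v₁ x - ∑ a ∈ F₁, b₁ a • e a x‖ + ‖v₂ x - ∑ a ∈ F₂, b₂ a • g a x‖) ^ 2 :=
      pow_le_pow_left₀ (norm_nonneg _) h3 2
    refine h4.trans ?_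
    nlinarith [sq_nonneg (‖v₁ x - ∑ a ∈ F₁, b₁ a • e a x‖ - ‖v₂ x - ∑ a ∈ F₂, b₂ a • g a x‖)]
  rw [integral_add (i1.const_mul 2) (i2.const_mul 2), integral_const_mul, integral_const_mul] at hle
  linarith

/-- speeds of all modes -/
noncomputable def sX (S : ℕ → ℝ) : Ix (ℕ × Bool) ⊕ ℕ → ℝ := Sum.elim (sI S) (fun _ => 0)

/-- partners of all modes -/
def σX : Ix (ℕ × Bool) ⊕ ℕ → Ix (ℕ × Bool) ⊕ ℕ := Sum.map σI id

theorem t_MAINX_of (hBLOW : S_BLOW3) (hPK : S_PKX) (hPAR : S_PAR) (hBAS : S_BASX)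
    (hFORM : S_FORM) (hMM : S_MM) (hINT : S_INT) (hDERB : S_DERB) (hCONC : S_CONC0)
    (hSWB : S_SWB) (hSPLIT : S_SPLIT) (hSYM : S_SYM)
    (hSER : S_SERR) (hENER : S_ENERR) (hUNIQ : S_UNIQR) : S_MAINX := by
  intro ν hν
  obtain ⟨Ψ, H, a, κ, h, q, q', hpk, hPΨ, hPH⟩ := hPK
  -- parameters
  set G₀ : ℝ := ν * (dirf Ψ Ψ + dirf H H) with hG₀
  have hG₀0 : 0 ≤ G₀ := mul_nonneg hν.le (add_nonneg (dirf_nonneg _) (dirf_nonneg _))
  obtain ⟨r, α, ε, lm, L, hP'⟩ := hPAR a κ h q' (G₀ + 1) 1 hpk.a0 hpk.κ0 hpk.h0 hpk.q'0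
    (by linarith) (by norm_num)
  have hP : Par a κ h q' G₀ 1 r α ε lm L := par_mono (by linarith) hP'
  have hq'1 : q' < 1 := hpk.qq.trans hpk.q1
  have hrpow : ∀ n, r n ≤ q' ^ n * r 0 := by
    intro n
    induction n with
    | zero => simp
    | succ n ih =>
      refine (hP.rstep n).trans ?_
      rw [pow_succ]
      calc q' * r n ≤ q' * (q' ^ n * r 0) := mul_le_mul_of_nonneg_left ih hpk.q'0.le
        _ = q' ^ n * q' * r 0 := by ring
  have hr0 : ∀ n, r n ≤ r 0 := by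
    intro n
    refine (hrpow n).trans ?_
    have h1 : q' ^ n ≤ 1 := pow_le_one₀ hpk.q'0.le hq'1.le
    have := hP.r0 0
    nlinarith
  have hrlim : Tendsto r atTop (𝓝 0) := by
    have h1 : Tendsto (fun n : ℕ => q' ^ n * r 0) atTop (𝓝 (0 * r 0)) :=
      (tendsto_pow_atTop_nhds_zero_of_lt_one hpk.q'0.le hq'1).mul_const _
    rw [zero_mul] at h1
    exact squeeze_zero (fun n => (hP.r0 n).le) hrpow h1
  -- main modes
  obtain ⟨m1, m2, m3, m4, -⟩ := hMM 0 Ψ H a κ h q q' G₀ 1 r α ε lm L hpk hP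
  set ψ : ℕ → E3 → E3 := psi 0 Ψ H r α ε with hψ
  have hcs0 : ∀ n, CS (ball 0 (r 0)) (ψ n) := fun n => (m1 n).mono (ball_subset_ball (hr0 n))
  have hcsψ : ∀ n, CS univ (ψ n) := fun n => (m1 n).mono (subset_univ _)
  have hpolψ : ∀ n, Pol (ψ n) := fun n =>
    ((hPΨ.sc (hP.r0 n)).smul (α n)).add ((hPH.sc (hP.r0 (n + 1))).smul (ε n))
  have hlow : ∀ n m, n < m → ∃ s θ, Low 0 (r m) H (ψ n) s θ := by
    intro n m hnm
    rcases (show n + 1 ≤ m from hnm).eq_or_lt with h1 | h1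
    · subst h1
      exact ⟨_, _, m2 n⟩
    · exact ⟨_, _, m3 n m h1⟩
  have hzero : ∀ n x, x ∉ ball (0 : E3) (r n) → ψ n x = 0 := fun n x hx => (m1 n).zero_of hx
  have horth' : ∀ n m, n < m → ipr (ψ n) (ψ m) = 0 := by
    intro n m hnm
    obtain ⟨s, θ, hl⟩ := hlow n m hnm
    have h1 := hcsψ n
    exact (hINT 0 Ψ H a κ h q q' G₀ 1 r α ε lm L hpk hP m (ψ n) (ψ n) s θ s θ h1 h1 hl
      hl).1
  have horth : ∀ m n, (m = n → ipr (ψ m) (ψ n) = 1) ∧ (m ≠ n → ipr (ψ m) (ψ n) = 0) := by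
    intro m n
    refine ⟨fun h1 => by rw [h1]; exact m4 n, fun h1 => ?_⟩
    rcases lt_or_gt_of_ne h1 with h2 | h2
    · exact horth' m n h2
    · rw [(hFORM.2.1 _ _).1]
      exact horth' n m h2
  -- the other modes
  obtain ⟨w, hw, hwP, hwC⟩ := hBAS (r 0) ψ (hP.r0 0) hcs0 hpolψ horth (by
      intro ρ' hρ'
      obtain ⟨N, hN⟩ := Filter.eventually_atTop.1 (hrlim.eventually (gt_mem_nhds hρ'))
      exact ⟨N, fun n hn x hx => hzero n x fun h1 => hx (ball_subset_ball (hN n hn).le h1)⟩)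
    (by
      intro n
      refine ⟨Am a r α n, r (n + 2), hP.r0 _, fun x hx => ?_⟩
      have := m3 n (n + 2) le_rfl x hx
      rw [zero_smul, add_zero] at this
      exact this)
  obtain ⟨gs, hgcs, hgS, hgo, hgC⟩ := hSWB
  -- the kernel
  obtain ⟨g, ℓ, ρ, R, E, K, hq⟩ := hCONC ν 0 Ψ H a κ h q q' 1 r α ε lm L hν hpk hP
    (ℕ × Bool) w hw
  obtain ⟨S, -, T, z, hT, hz⟩ := hBLOW (ℕ × Bool) g oo ss tt lm L _ _ ℓ ρ _ R E _ _ (btx w) K hq
    rot (btx_pos w)
  set e : Ix (ℕ × Bool) → E3 → E3 := em ψ w with he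
  have hecs : ∀ i, CS univ (e i) := by
    rintro (n | j)
    · exact hcsψ n
    · exact hw.cs j
  have hepol : ∀ i, Pol (e i) := by
    rintro (n | j)
    · exact hpolψ n
    · exact hwP j
  have heorth : ∀ i j, (i = j → ipr (e i) (e j) = 1) ∧ (i ≠ j → ipr (e i) (e j) = 0) := by
    rintro (n | j) (n' | j')
    · refine ⟨fun h1 => (horth n n').1 (Sum.inl_injective h1), fun h1 => (horth n n').2 fun h2 =>
        h1 (by rw [h2])⟩
    · exact ⟨fun h1 => absurd h1 (by simp), fun _ => hw.perp n j'⟩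
    · refine ⟨fun h1 => absurd h1 (by simp), fun _ => ?_⟩
      rw [(hFORM.2.1 _ _).1]
      exact hw.perp n' j
    · refine ⟨fun h1 => (hw.orth j j').1 (Sum.inr_injective h1), fun h1 => (hw.orth j j').2
        fun h2 => h1 (by rw [h2])⟩
  set e' : Ix (ℕ × Bool) ⊕ ℕ → E3 → E3 := Sum.elim e gs with he'
  have hskew : SkewX e' σX (sX S) := by
    refine ⟨?_, ?_, ?_, ?_, ?_, ?_⟩
    · rintro (i | k)
      · exact hecs i
      · exact hgcs k
    · rintro (i | k)
      · exact Or.inl (hepol i)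
      · exact Or.inr ⟨hgS k, rfl, rfl⟩
    · rintro (i | k) (j | l)
      · exact ⟨fun h1 => (heorth i j).1 (Sum.inl_injective h1), fun h1 => (heorth i j).2 fun h2 =>
          h1 (by rw [h2])⟩
      · exact ⟨fun h1 => absurd h1 (by simp), fun _ =>
          (hSYM (e i) (gs l) (hecs i).smooth (hepol i) (hgcs l) (hgS l)).1⟩
      · refine ⟨fun h1 => absurd h1 (by simp), fun _ => ?_⟩
        rw [(hFORM.2.1 _ _).1]
        exact (hSYM (e j) (gs k) (hecs j).smooth (hepol j) (hgcs k) (hgS k)).1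
      · exact ⟨fun h1 => (hgo k l).1 (Sum.inr_injective h1), fun h1 => (hgo k l).2 fun h2 =>
          h1 (by rw [h2])⟩
    · intro v hv hvA
      obtain ⟨v₁, v₂, hv1, hp1, hv2, hs2, hvv⟩ := hSPLIT v hv hvA
      exact compl_sum hecs hgcs hv1 hv2 hvv (hwC v₁ hv1 hp1) (hgC v₂ hv2 hs2)
    · rintro ((n | j) | k)
      · rfl
      · show Sum.inl (Sum.inr (ss (ss j))) = Sum.inl (Sum.inr j)
        rw [rot.inv j]
      · rfl
    · rintro ((n | j) | k)
      · show (0 : ℝ) = -0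
        simp
      · show S (oo (ss j)) * tt (ss j) = -(S (oo j) * tt j)
        rw [rot.grp j, rot.skew j]
        ring
      · show (0 : ℝ) = -0
        simp
  -- sizes
  have hLpos : ∀ n, 0 < L n := fun n => lt_of_lt_of_le one_pos (Bl.L_one hq n)
  have hLs : Summable (fun n => (L n)⁻¹) := Bl.L_inv_sum hq
  set V : ℝ := √((volume (ball (0 : E3) (r 0))).toReal) with hV
  have hV0 : 0 ≤ V := Real.sqrt_nonneg _
  have hnl0 : ∀ (k : ℕ) (f : E3 → E3), 0 ≤ nk k f + l2 k f := fun k f =>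
    add_nonneg (nk_nonneg k f) (l2_nonneg k f)
  have hbd : ∀ k : ℕ, ∀ T' < T, ∃ b : Ix (ℕ × Bool) → ℝ, Summable b ∧ (∀ i, 0 ≤ b i) ∧
      ∀ t ∈ Icc 0 T', ∀ i, |z i t| * (nk k (e i) + l2 k (e i)) ≤ b i := by
    intro k T' hT'
    obtain ⟨X, m, hX⟩ := hDERB 0 Ψ H a κ h q q' G₀ 1 r α ε lm L hpk hP k
    obtain ⟨Y, hY⟩ := hz.reg (m + 1) T' hT'
    refine ⟨Sum.elim (fun n => (1 + V) * |X| * |Y| * (L n)⁻¹)
      (fun j => btx w j * (nk k (w j) + l2 k (w j))), ?_, ?_, ?_⟩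
    · have h3 : Summable ((Sum.elim (fun n => (1 + V) * |X| * |Y| * (L n)⁻¹)
          (fun j => btx w j * (nk k (w j) + l2 k (w j)))) ∘ Sum.inl) := hLs.mul_left _
      have h4 : Summable ((Sum.elim (fun n => (1 + V) * |X| * |Y| * (L n)⁻¹)
          (fun j => btx w j * (nk k (w j) + l2 k (w j)))) ∘ Sum.inr) := btx_nk w k
      exact (HasSum.sum h3.hasSum h4.hasSum).summable
    · rintro (n | j)
      · have := hLpos n
        simp only [Sum.elim_inl]
        positivity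
      · exact mul_nonneg (btx_pos w j).le (hnl0 k _)
    · intro t ht
      rintro (n | j)
      · have h1 := hY t ht n
        have h2 := hX n
        have h3 := hLpos n
        simp only [Sum.elim_inl]
        have h20 : nk k (ψ n) + l2 k (ψ n) ≤ (1 + V) * (|X| * L n ^ m) := by
          have h21 := l2_le (hcs0 n) k
          have h22 : nk k (ψ n) ≤ |X| * L n ^ m :=
            h2.trans (mul_le_mul_of_nonneg_right (le_abs_self X) (pow_pos h3 m).le)
          have h23 : nk k (ψ n) * V ≤ |X| * L n ^ m * V := mul_le_mul_of_nonneg_right h22 hV0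
          have h24 : l2 k (ψ n) ≤ |X| * L n ^ m * V := h21.trans h23
          nlinarith
        have h4 : |z (Sum.inl n) t| * (nk k (ψ n) + l2 k (ψ n)) ≤
            |z (Sum.inl n) t| * ((1 + V) * (|X| * L n ^ m)) :=
          mul_le_mul_of_nonneg_left h20 (abs_nonneg _)
        refine h4.trans ?_
        have h5 : |z (Sum.inl n) t| * L n ^ m ≤ |Y| * (L n)⁻¹ := by
          rw [← div_eq_mul_inv, le_div_iff₀ h3]
          calc |z (Sum.inl n) t| * L n ^ m * L n = L n ^ (m + 1) * |z (Sum.inl n) t| := by ring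
            _ ≤ Y := h1
            _ ≤ |Y| := le_abs_self Y
        have h6 : 0 ≤ (1 + V) * |X| := by positivity
        calc |z (Sum.inl n) t| * ((1 + V) * (|X| * L n ^ m))
            = (1 + V) * |X| * (|z (Sum.inl n) t| * L n ^ m) := by ring
          _ ≤ (1 + V) * |X| * (|Y| * (L n)⁻¹) := mul_le_mul_of_nonneg_left h5 h6
          _ = (1 + V) * |X| * |Y| * (L n)⁻¹ := by ring
      · exact mul_le_mul_of_nonneg_right (hz.oth j t ⟨ht.1, ht.2.trans_lt hT'⟩) (hnl0 k _)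
  have hsum : ∀ t ∈ Ico 0 T, ∀ k : ℕ, Summable (fun i => |z i t| * (nk k (e i) + l2 k (e i))) := by
    intro t ht k
    obtain ⟨b, hb1, -, hb3⟩ := hbd k t ht.2
    exact Summable.of_nonneg_of_le (fun i => mul_nonneg (abs_nonneg _) (hnl0 k _))
      (hb3 t ⟨ht.1, le_rfl⟩) hb1
  have hle1 : ∀ (k : ℕ) t i, |z i t| * nk k (e i) ≤ |z i t| * (nk k (e i) + l2 k (e i)) :=
    fun k t i => mul_le_mul_of_nonneg_left (by linarith [l2_nonneg k (e i)]) (abs_nonneg _)
  have hle2 : ∀ (k : ℕ) t i, |z i t| * l2 k (e i) ≤ |z i t| * (nk k (e i) + l2 k (e i)) :=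
    fun k t i => mul_le_mul_of_nonneg_left (by linarith [nk_nonneg k (e i)]) (abs_nonneg _)
  have hco : Countable (Ix (ℕ × Bool)) := inferInstance
  have hS := fun t (ht : t ∈ Ico 0 T) => hSER (Ix (ℕ × Bool)) e (fun i => z i t) hecs hepol
    heorth (hsum t ht)
  set u : ℝ → E3 → E3 := fun t => ser e (fun i => z i t) with hu
  have hpolu : ∀ t ∈ Ico 0 T, Pol (u t) := fun t ht => (hS t ht).2.1
  have hcoef : ∀ t ∈ Ico 0 T, ∀ i, ipr (u t) (e i) = z i t := fun t ht i =>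
    (hS t ht).2.2.2.2.2.1 i
  have hsw : ∀ t ∈ Ico 0 T, ∀ k, ipr (u t) (gs k) = 0 ∧ dirf (u t) (gs k) = 0 ∧
      adv (u t) (u t) (gs k) = 0 := fun t ht k =>
    hSYM (u t) (gs k) (hS t ht).1 (hpolu t ht) (hgcs k) (hgS k)
  have hsol : SolX ν e' σX (sX S) T u := by
    refine ⟨fun t ht => (hS t ht).1, fun t ht => (hpolu t ht).axi,
      fun t ht x => (hS t ht).2.2.2.2.1 x, ?_, ?_⟩
    · intro k T' hT'
      obtain ⟨b, hb1, hb2, hb3⟩ := hbd k T' hT'
      set B : ℝ := ∑' i, b i with hB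
      refine ⟨max B (B ^ 2), fun t ht => ?_⟩
      have ht' : t ∈ Ico 0 T := ⟨ht.1, ht.2.trans_lt hT'⟩
      have s1 : Summable (fun i => |z i t| * nk k (e i)) :=
        Summable.of_nonneg_of_le (fun i => mul_nonneg (abs_nonneg _) (nk_nonneg _ _))
          (hle1 k t) (hsum t ht' k)
      have s2 : Summable (fun i => |z i t| * l2 k (e i)) :=
        Summable.of_nonneg_of_le (fun i => mul_nonneg (abs_nonneg _) (l2_nonneg _ _))
          (hle2 k t) (hsum t ht' k)
      have c1 : ∑' i, |z i t| * nk k (e i) ≤ B :=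
        s1.tsum_le_tsum (fun i => (hle1 k t i).trans (hb3 t ht i)) hb1
      have c2 : ∑' i, |z i t| * l2 k (e i) ≤ B :=
        s2.tsum_le_tsum (fun i => (hle2 k t i).trans (hb3 t ht i)) hb1
      have c0 : 0 ≤ ∑' i, |z i t| * l2 k (e i) :=
        tsum_nonneg fun i => mul_nonneg (abs_nonneg _) (l2_nonneg _ _)
      obtain ⟨i1, i2⟩ := (hS t ht').2.2.2.1 k
      refine ⟨fun x => (((hS t ht').2.2.1 k x).trans c1).trans (le_max_left _ _), i1, ?_⟩
      exact (i2.trans (pow_le_pow_left₀ c0 c2 2)).trans (le_max_right _ _)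
    · rintro (i | k) t ht
      · have h1 := hz.deriv i t ht
        have h2 : HasDerivWithinAt (fun τ => ipr (u τ) (e i))
            (Kz S oo ss tt (fun a => z a t) i - lin (DD ν e) (fun a => z a t) i +
              qd (cc e) (fun a => z a t) i) (Ico 0 T) t :=
          h1.congr (fun τ hτ => hcoef τ hτ i) (hcoef t ht i)
        refine h2.congr_deriv ?_
        show Kz S oo ss tt (fun a => z a t) i - lin (DD ν e) (fun a => z a t) i +
              qd (cc e) (fun a => z a t) i = sI S i * ipr (u t) (e (σI i)) -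
            ν * dirf (u t) (e i) - adv (u t) (u t) (e i)
        have e1 : Kz S oo ss tt (fun a => z a t) i = sI S i * ipr (u t) (e (σI i)) := by
          rw [hcoef t ht]
          rcases i with n | j
          · show (0 : ℝ) = 0 * _
            rw [zero_mul]
          · rfl
        have e2 : lin (DD ν e) (fun a => z a t) i = ν * dirf (u t) (e i) := by
          have h3 := (hS t ht).2.2.2.2.2.2.1 i
          have h3' : dirf (u t) (e i) = ∑' b, dirf (e i) (e b) * z b t := h3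
          rw [h3', ← tsum_mul_left]
          unfold lin DD
          exact tsum_congr fun b => by ring
        have e3 : qd (cc e) (fun a => z a t) i = -adv (u t) (u t) (e i) := by
          have h3 := (hS t ht).2.2.2.2.2.2.2 i
          have h3' : adv (u t) (u t) (e i) =
            ∑' p : Ix (ℕ × Bool) × Ix (ℕ × Bool), adv (e p.1) (e p.2) (e i) * z p.1 t * z p.2 t :=
              h3
          rw [h3', ← tsum_neg]
          unfold qd cc
          exact tsum_congr fun b => by ring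
        rw [e1, e2, e3]
        ring
      · show HasDerivWithinAt (fun τ => ipr (u τ) (gs k))
          (0 * ipr (u t) (gs k) - ν * dirf (u t) (gs k) - adv (u t) (u t) (gs k)) (Ico 0 T) t
        obtain ⟨g1, g2, g3⟩ := hsw t ht k
        rw [g1, g2, g3]
        have h2 : HasDerivWithinAt (fun _ : ℝ => (0 : ℝ)) 0 (Ico 0 T) t :=
          hasDerivWithinAt_const _ _ _
        exact (h2.congr (fun τ hτ => (hsw τ hτ k).1) g1).congr_deriv (by ring)
  have hu0 : u 0 = e (Sum.inl 0) := by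
    funext x
    show ∑' i, z i 0 • e i x = e (Sum.inl 0) x
    rw [tsum_eq_single (Sum.inl 0)]
    · rw [hz.init.1, one_smul]
    · rintro (n | j) hi
      · rcases n with _ | n
        · exact absurd rfl hi
        · rw [hz.init.2.1, zero_smul]
      · rw [hz.init.2.2, zero_smul]
  -- blow-up
  have hblow : ∀ M : ℝ, ∃ t ∈ Ico 0 T, ∃ x, M < ‖u t x‖ := by
    intro M
    by_contra hcon
    push Not at hcon
    obtain ⟨n, hn⟩ := hP.small (M * √((volume (ball (0 : E3) 1)).toReal))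
    obtain ⟨t, ht, hbig⟩ := hz.big n
    have h1 := ipr_small (hP.r0 n) (m1 n) (m4 n) (hcon t ht)
    have h2 : ipr (u t) (ψ n) = z (Sum.inl n) t := hcoef t ht (Sum.inl n)
    rw [h2] at h1
    linarith
  refine ⟨Ix (ℕ × Bool) ⊕ ℕ, e', σX, sX S, Sum.inl (Sum.inl 0), T, u, hskew, hT, hsol, hu0,
    hpolu, ?_, ?_, hblow⟩
  · intro T' v hT' hv hv0
    have heq : ∀ t ∈ Ico 0 (min T' T), v t = u t :=
      hUNIQ ν _ e' σX (sX S) (min T' T) v u hν hskew (hv.mono (min_le_left _ _))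
        (hsol.mono (min_le_right _ _)) (by rw [hv0, hu0]; rfl)
    have hle : T' ≤ T := by
      by_contra hcon
      rw [not_le] at hcon
      rw [min_eq_right hcon.le] at heq
      obtain ⟨M, hM⟩ := hv.bdd 0 T hcon
      obtain ⟨t, ht, x, hx⟩ := hblow |M|
      rw [← heq t ht] at hx
      have := (hM t ⟨ht.1, ht.2.le⟩).1 x
      rw [norm_iteratedFDeriv_zero] at this
      have h2 := le_abs_self M
      linarith
    refine ⟨hle, fun t ht => ?_⟩
    rw [min_eq_left hle] at heq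
    exact heq t ht
  · refine hENER ν _ e' σX (sX S) T u hskew hsol ?_
    intro T' hT'
    obtain ⟨Y, hY⟩ := hz.reg 1 T' hT'
    refine ⟨Sum.elim (Sum.elim (fun n => Y * (L n)⁻¹) (btx w)) (fun _ => 0), ?_, ?_⟩
    · have h3 : Summable ((Sum.elim (fun n => Y * (L n)⁻¹) (btx w)) ∘ Sum.inl) :=
        hLs.mul_left _
      have h4 : Summable ((Sum.elim (fun n => Y * (L n)⁻¹) (btx w)) ∘ Sum.inr) := btx_summ w
      have h5 : Summable (Sum.elim (fun n => Y * (L n)⁻¹) (btx w)) :=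
        (HasSum.sum h3.hasSum h4.hasSum).summable
      have h6 : Summable ((Sum.elim (Sum.elim (fun n => Y * (L n)⁻¹) (btx w))
          (fun _ : ℕ => (0 : ℝ))) ∘ Sum.inl) := h5
      have h7 : Summable ((Sum.elim (Sum.elim (fun n => Y * (L n)⁻¹) (btx w))
          (fun _ : ℕ => (0 : ℝ))) ∘ Sum.inr) := summable_zero
      exact (HasSum.sum h6.hasSum h7.hasSum).summable
    · rintro t ht (i | k)
      · have ht' : t ∈ Ico 0 T := ⟨ht.1, ht.2.trans_lt hT'⟩
        show |ipr (u t) (e i)| ≤ Sum.elim (fun n => Y * (L n)⁻¹) (btx w) i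
        rw [hcoef t ht']
        rcases i with n | j
        · simp only [Sum.elim_inl]
          rw [← div_eq_mul_inv, le_div_iff₀ (hLpos n), mul_comm]
          have := hY t ht n
          rwa [pow_one] at this
        · exact hz.oth j t ht'
      · have ht' : t ∈ Ico 0 T := ⟨ht.1, ht.2.trans_lt hT'⟩
        show |ipr (u t) (gs k)| ≤ 0
        rw [(hsw t ht' k).1, abs_zero]

end Pool.Agent.Y303.SK
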