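import Pool.Agent.Y303.SK.All
import Pool.Agent.Y303.SK.XMain
import Pool.Agent.Y907.SKX.PK
import Pool.Agent.Y495.SKX.Conc0
import Pool.Agent.Y784.SKX.DensX
import Pool.Agent.Y784.SKX.DensR
import Pool.Agent.Y48.SK.BASX
import Pool.Agent.Y455.SKX.Swb
import Pool.Agent.Y366.SKX.Split
import Pool.Agent.Y678.SKX.Ser
import Pool.Agent.Y978.SKX.Ener
import Pool.Agent.Y93.SK.UniqS

/-! Project SKX: everything together. -/

set_option autoImplicit false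

namespace Pool.Agent.Y303.SK

theorem t_MAINX' (hU : S_UNIQR) : S_MAINX :=
  t_MAINX_of t_BLOW3 Pool.Agent.Y907.SKX.t_PKX Pool.Agent.Y302.SK.t_PAR
    (Pool.Agent.Y48.SK.t_BASX Pool.Agent.Y784.SKX.t_DENSX Pool.Agent.Y302.SK.t_GS
      Pool.Agent.Y907.SKX.t_PKX)
    Pool.Agent.Y317.SK.t_FORM Pool.Agent.Y841.SK.t_MM t_INT Pool.Agent.Y153.SKD.t_DERB
    (Pool.Agent.Y495.SKX.t_CONC0 Pool.Agent.Y841.SK.t_MM t_INT
      Pool.Agent.Y317.SK.t_FORM Pool.Agent.Y232.SK.t_HDY)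
    (Pool.Agent.Y455.SKX.t_SWB Pool.Agent.Y302.SK.t_GS)
    Pool.Agent.Y366.SKX.t_SPLIT Pool.Agent.Y366.SKX.t_SYM Pool.Agent.Y678.SKX.t_SERR
    (Pool.Agent.Y978.SKX.t_ENERR Pool.Agent.Y784.SKX.t_DENSR) hU

theorem t_MAINX : S_MAINX := t_MAINX' (Pool.Agent.Y93.SK.t_UNIQR Pool.Agent.Y784.SKX.t_DENSR)

end Pool.Agent.Y303.SK
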