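import Pool.Agent.Y303.SK.XAll

/-!
Project SKX: the form in which the main theorem is stated (fields on `EuclideanSpace ℝ (Fin 3)`).
-/

open Set MeasureTheory

set_option autoImplicit false

namespace Pool.Agent.Y303.SKXR

/-- rotation about the third axis -/
noncomputable def rot (θ : ℝ) (x : EuclideanSpace ℝ (Fin 3)) : EuclideanSpace ℝ (Fin 3) :=
  WithLp.toLp 2 ![Real.cos θ * x 0 - Real.sin θ * x 1, Real.sin θ * x 0 + Real.cos θ * x 1, x 2]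

/-- axisymmetric fields -/
def Axi (v : EuclideanSpace ℝ (Fin 3) → EuclideanSpace ℝ (Fin 3)) : Prop :=
  ∀ (θ : ℝ) (x : EuclideanSpace ℝ (Fin 3)), v (rot θ x) = rot θ (v x)

/-- axisymmetric fields without swirl (`u_θ = 0`) -/
structure Pol (v : EuclideanSpace ℝ (Fin 3) → EuclideanSpace ℝ (Fin 3)) : Prop where
  axi : Axi v
  swirl : ∀ x, x 0 * v x 1 - x 1 * v x 0 = 0

/-- axisymmetric fields with `u_r = u_z = 0` -/
structure Swl (v : EuclideanSpace ℝ (Fin 3) → EuclideanSpace ℝ (Fin 3)) : Prop where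
  axi : Axi v
  pol : ∀ x, v x 2 = 0 ∧ x 0 * v x 0 + x 1 * v x 1 = 0

/-- the divergence -/
noncomputable def dvg (v : EuclideanSpace ℝ (Fin 3) → EuclideanSpace ℝ (Fin 3))
    (x : EuclideanSpace ℝ (Fin 3)) : ℝ :=
  ∑ i : Fin 3, (fderiv ℝ v x (EuclideanSpace.single i 1)) i

/-- smooth divergence-free fields with compact support -/
structure CS (v : EuclideanSpace ℝ (Fin 3) → EuclideanSpace ℝ (Fin 3)) : Prop where
  smooth : ContDiff ℝ (⊤ : ℕ∞) v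
  cpt : HasCompactSupport v
  dv : ∀ x, dvg v x = 0

/-- `∫ v · w` -/
noncomputable def ipr (v w : EuclideanSpace ℝ (Fin 3) → EuclideanSpace ℝ (Fin 3)) : ℝ :=
  ∫ x, inner ℝ (v x) (w x)

/-- `∫ ∇v : ∇w` -/
noncomputable def dirf (v w : EuclideanSpace ℝ (Fin 3) → EuclideanSpace ℝ (Fin 3)) : ℝ :=
  ∫ x, ∑ i : Fin 3, inner ℝ (fderiv ℝ v x (EuclideanSpace.single i 1))
    (fderiv ℝ w x (EuclideanSpace.single i 1))

/-- `∫ ((u · ∇) v) · w` -/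
noncomputable def adv (u v w : EuclideanSpace ℝ (Fin 3) → EuclideanSpace ℝ (Fin 3)) : ℝ :=
  ∫ x, inner ℝ (fderiv ℝ v x (u x)) (w x)

/-- size of the derivative of order `k` -/
noncomputable def nd (k : ℕ) (v : EuclideanSpace ℝ (Fin 3) → EuclideanSpace ℝ (Fin 3))
    (x : EuclideanSpace ℝ (Fin 3)) : ℝ := ‖iteratedFDeriv ℝ k v x‖

/-- The skew-adjoint linear operator `K = ∑ s i ⟨·, e (σ i)⟩ e i`: here `e i` is a complete
orthonormal system in the space of the axisymmetric divergence-free fields of `L²(ℝ³)`, it consists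
of smooth compactly supported fields, each of them without swirl or with swirl only, `K` vanishes
on the latter; `σ` is an involution and `s (σ i) = - s i`. -/
structure SkewX {ι : Type} (e : ι → EuclideanSpace ℝ (Fin 3) → EuclideanSpace ℝ (Fin 3))
    (σ : ι → ι) (s : ι → ℝ) : Prop where
  field : ∀ i, CS (e i)
  split : ∀ i, Pol (e i) ∨ (Swl (e i) ∧ σ i = i ∧ s i = 0)
  orth : ∀ i j, (i = j → ipr (e i) (e j) = 1) ∧ (i ≠ j → ipr (e i) (e j) = 0)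
  compl : ∀ v, CS v → Axi v → ∀ ε > 0, ∃ (F : Finset ι) (b : ι → ℝ),
    ∫ x, ‖v x - ∑ a ∈ F, b a • e a x‖ ^ 2 < ε
  inv : ∀ i, σ (σ i) = i
  skew : ∀ i, s (σ i) = -s i

/-- Axisymmetric smooth solutions on `[0, T)`, in `H^∞(ℝ³)` with locally uniform bounds, of
`∂ₜ u + (u · ∇) u + ∇p = ν Δ u + K u`, `div u = 0` (the equation is tested with the complete
system `e`). -/
structure SolX {ι : Type} (ν : ℝ)
    (e : ι → EuclideanSpace ℝ (Fin 3) → EuclideanSpace ℝ (Fin 3)) (σ : ι → ι) (s : ι → ℝ)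
    (T : ℝ) (u : ℝ → EuclideanSpace ℝ (Fin 3) → EuclideanSpace ℝ (Fin 3)) : Prop where
  smooth : ∀ t ∈ Ico 0 T, ContDiff ℝ (⊤ : ℕ∞) (u t)
  axi : ∀ t ∈ Ico 0 T, Axi (u t)
  dv : ∀ t ∈ Ico 0 T, ∀ x, dvg (u t) x = 0
  bdd : ∀ k : ℕ, ∀ T' < T, ∃ M, ∀ t ∈ Icc 0 T', (∀ x, nd k (u t) x ≤ M) ∧
    Integrable (fun x => nd k (u t) x ^ 2) volume ∧ ∫ x, nd k (u t) x ^ 2 ≤ M
  eqn : ∀ i, ∀ t ∈ Ico 0 T, HasDerivWithinAt (fun τ => ipr (u τ) (e i))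
    (s i * ipr (u t) (e (σ i)) - ν * dirf (u t) (e i) - adv (u t) (u t) (e i)) (Ico 0 T) t

open Pool.Agent.Y5 (E3)

theorem pol_iff {v : E3 → E3} : Pol v ↔ SK.Pol v :=
  ⟨fun h => ⟨h.axi, h.swirl⟩, fun h => ⟨h.axi, h.swirl⟩⟩

theorem swl_iff {v : E3 → E3} : Swl v ↔ SK.Swl v :=
  ⟨fun h => ⟨h.axi, h.pol⟩, fun h => ⟨h.axi, h.pol⟩⟩

theorem cs_iff {v : E3 → E3} : CS v ↔ SK.CS univ v :=
  ⟨fun h => ⟨h.smooth, h.cpt, subset_univ _, h.dv⟩, fun h => ⟨h.smooth, h.cpt, h.dv⟩⟩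

theorem skewX_iff {ι : Type} {e : ι → E3 → E3} {σ : ι → ι} {s : ι → ℝ} :
    SkewX e σ s ↔ SK.SkewX e σ s := by
  constructor
  · intro h
    refine ⟨fun i => cs_iff.1 (h.field i), fun i => ?_, h.orth,
      fun v hv hA => h.compl v (cs_iff.2 hv) hA, h.inv, h.skew⟩
    rcases h.split i with h1 | h1
    · exact Or.inl (pol_iff.1 h1)
    · exact Or.inr ⟨swl_iff.1 h1.1, h1.2⟩
  · intro h
    refine ⟨fun i => cs_iff.2 (h.field i), fun i => ?_, h.orth,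
      fun v hv hA => h.compl v (cs_iff.1 hv) hA, h.inv, h.skew⟩
    rcases h.split i with h1 | h1
    · exact Or.inl (pol_iff.2 h1)
    · exact Or.inr ⟨swl_iff.2 h1.1, h1.2⟩

theorem solX_iff {ι : Type} {ν : ℝ} {e : ι → E3 → E3} {σ : ι → ι} {s : ι → ℝ}
    {T : ℝ} {u : ℝ → E3 → E3} : SolX ν e σ s T u ↔ SK.SolX ν e σ s T u :=
  ⟨fun h => ⟨h.smooth, h.axi, h.dv, h.bdd, h.eqn⟩, fun h => ⟨h.smooth, h.axi, h.dv, h.bdd, h.eqn⟩⟩

theorem t_RES (ν : ℝ) (hν : 0 < ν) :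
    ∃ (ι : Type) (e : ι → EuclideanSpace ℝ (Fin 3) → EuclideanSpace ℝ (Fin 3)) (σ : ι → ι)
      (s : ι → ℝ) (i₀ : ι) (T : ℝ) (u : ℝ → EuclideanSpace ℝ (Fin 3) → EuclideanSpace ℝ (Fin 3)),
      SkewX e σ s ∧ 0 < T ∧ SolX ν e σ s T u ∧ u 0 = e i₀ ∧ (∀ t ∈ Ico 0 T, Pol (u t)) ∧
      (∀ (T' : ℝ) (v : ℝ → EuclideanSpace ℝ (Fin 3) → EuclideanSpace ℝ (Fin 3)), 0 < T' →
        SolX ν e σ s T' v → v 0 = e i₀ → T' ≤ T ∧ ∀ t ∈ Ico 0 T', v t = u t) ∧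
      (∀ t ∈ Ico 0 T, HasDerivWithinAt (fun τ => ipr (u τ) (u τ)) (-(2 * (ν * dirf (u t) (u t))))
        (Ico 0 T) t) ∧
      ∀ M : ℝ, ∃ t ∈ Ico 0 T, ∃ x, M < ‖u t x‖ := by
  obtain ⟨ι, e, σ, s, i₀, T, u, h1, h2, h3, h4, h5, h6, h7, h8⟩ := SK.t_MAINX ν hν
  refine ⟨ι, e, σ, s, i₀, T, u, skewX_iff.2 h1, h2, solX_iff.2 h3, h4,
    fun t ht => pol_iff.2 (h5 t ht), ?_, h7, h8⟩
  intro T' v hT' hv hv0
  exact h6 T' v hT' (solX_iff.1 hv) hv0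

end Pool.Agent.Y303.SKXR
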